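import Pool.Agent.Helper85.SB.D1
import Pool.Agent.Helper38.ED.LIBasic

/-! Block D: the difference of two reparametrised arcs, and the determinant. -/

namespace Pool.Agent.Helper85.SB

open MvPowerSeries Pool.Agent.Helper38.EQ Pool.Agent.Helper38.GP

section

variable {d n : ℕ} {K : Type} [Field K]

/-- The determinant lemma. -/
theorem det_lemma (V u w : Fin 3 → K) (hdet : Matrix.det ![V, u, w] ≠ 0) (p q : Fin 3 → K)
    (hpV : ∑ k, p k * V k = 0) (hqV : ∑ k, q k * V k = 0)
    (hind : ∀ α β : K, (∀ k, α * p k + β * q k = 0) → α = 0 ∧ β = 0) :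
    (∑ k, p k * u k) * (∑ k, q k * w k) - (∑ k, q k * u k) * (∑ k, p k * w k) ≠ 0 := by
  intro hcon
  have key : ∀ α β : K, α * (∑ k, p k * u k) + β * (∑ k, q k * u k) = 0 →
      α * (∑ k, p k * w k) + β * (∑ k, q k * w k) = 0 → α = 0 ∧ β = 0 := by
    intro α β h1 h2
    apply hind
    have h3 : Matrix.mulVec (Matrix.of ![V, u, w]) (fun k => α * p k + β * q k) = 0 := by
      funext i
      simp only [Fin.sum_univ_three] at h1 h2 hpV hqV
      fin_cases i
      · simp only [Matrix.mulVec, dotProduct, Fin.sum_univ_three, Matrix.of_apply,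
          Pi.zero_apply]
        simp
        linear_combination α * hpV + β * hqV
      · simp only [Matrix.mulVec, dotProduct, Fin.sum_univ_three, Matrix.of_apply,
          Pi.zero_apply]
        simp
        linear_combination h1
      · simp only [Matrix.mulVec, dotProduct, Fin.sum_univ_three, Matrix.of_apply,
          Pi.zero_apply]
        simp
        linear_combination h2
    have h4 := Matrix.eq_zero_of_mulVec_eq_zero hdet h3
    intro k
    exact congrFun h4 k
  by_cases h0 : (∑ k, p k * u k) = 0 ∧ (∑ k, q k * u k) = 0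
  · have h1 := key (∑ k, q k * w k) (-(∑ k, p k * w k)) (by rw [h0.1, h0.2]; ring) (by ring)
    have h2 := key 1 0 (by rw [h0.1, h0.2]; ring) (by
      have h3 := h1.2
      rw [neg_eq_zero] at h3
      rw [h3]
      ring)
    exact one_ne_zero h2.1
  · have h1 := key (∑ k, q k * u k) (-(∑ k, p k * u k)) (by ring) (by
      linear_combination -hcon)
    exact h0 ⟨neg_eq_zero.1 h1.2, h1.1⟩

/-- The linear part of a combination. -/
theorem lin_sum {ι : Type} [Fintype ι] (a ξ : ι → MvPowerSeries (Fin n) K)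
    (h0 : ∀ k, constantCoeff (ξ k) = 0) (v : Fin n → K) :
    lin (∑ k, a k * ξ k) v = ∑ k, constantCoeff (a k) * lin (ξ k) v := by
  unfold lin
  simp_rw [Finset.mul_sum]
  rw [Finset.sum_comm]
  refine Finset.sum_congr rfl fun j _ => ?_
  rw [map_sum, Finset.sum_mul]
  refine Finset.sum_congr rfl fun k _ => ?_
  rw [Pool.Agent.Helper38.ED.LIBasic_coeff_mul _ _ (h0 k), mul_assoc]

theorem coeff_sum {ι : Type} [Fintype ι] (a ξ : ι → MvPowerSeries (Fin n) K)
    (h0 : ∀ k, constantCoeff (ξ k) = 0) (j : Fin n) :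
    coeff (Finsupp.single j 1) (∑ k, a k * ξ k) =
      ∑ k, constantCoeff (a k) * coeff (Finsupp.single j 1) (ξ k) := by
  rw [map_sum]
  exact Finset.sum_congr rfl fun k _ => Pool.Agent.Helper38.ED.LIBasic_coeff_mul _ _ (h0 k) j

/-- The residue of the value of an arc. -/
theorem res_hom (c : MvPowerSeries (Fin n) K →ₐ[K] WS d K) (h : MvPowerSeries (Fin n) K) :
    res d K (c h) = constantCoeff h := by
  have h1 : h - C (constantCoeff h) ∈
      IsLocalRing.maximalIdeal (MvPowerSeries (Fin n) K) := by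
    rw [mem_maximalIdeal_iff_constantCoeff, map_sub, constantCoeff_C, sub_self]
  have h2 := Pool.Agent.Helper80.SP.hom_mem_W c h1
  rw [mem_mW, map_sub, map_sub, sub_eq_zero] at h2
  rw [h2]
  have h3 : (C (constantCoeff h) : MvPowerSeries (Fin n) K) = algebraMap K _ _ := rfl
  rw [h3, AlgHom.commutes, PowerSeries.algebraMap_apply, res_C]
  exact constantCoeff_C _

/-- The difference of the values of two arcs at a combination. -/
theorem diff_sum {ι : Type} [Fintype ι] (c c' : MvPowerSeries (Fin n) K →ₐ[K] WS d K)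
    (a ξ : ι → MvPowerSeries (Fin n) K) (w : ι → WS d K) {M μ : ℕ} (hM : 1 ≤ M)
    (hcong : ∀ h, PowerSeries.X ^ μ ∣ c h - c' h)
    (hξ : ∀ k, (PowerSeries.X ^ M : WS d K) ∣ c' (ξ k))
    (hd : ∀ k, c (ξ k) - c' (ξ k) = PowerSeries.X ^ μ * w k) :
    ∃ A : WS d K, c (∑ k, a k * ξ k) - c' (∑ k, a k * ξ k) = PowerSeries.X ^ μ * A ∧
      res d K A = ∑ k, constantCoeff (a k) * res d K (w k) := by
  choose b hb using fun k => hcong (a k)
  choose f hf using hξ
  refine ⟨∑ k, (c (a k) * w k + PowerSeries.X ^ M * (b k * f k)), ?_, ?_⟩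
  · rw [map_sum, map_sum, ← Finset.sum_sub_distrib, Finset.mul_sum]
    refine Finset.sum_congr rfl fun k _ => ?_
    rw [map_mul, map_mul]
    have h1 : c (a k) * c (ξ k) - c' (a k) * c' (ξ k) =
        c (a k) * (c (ξ k) - c' (ξ k)) + (c (a k) - c' (a k)) * c' (ξ k) := by ring
    rw [h1, hd, hb, hf]
    ring
  · rw [map_sum]
    refine Finset.sum_congr rfl fun k _ => ?_
    rw [map_add, map_mul, map_mul, map_pow, res_X, zero_pow (by omega), zero_mul, add_zero,
      res_hom]

theorem val_sum {ι : Type} [Fintype ι] (c' : MvPowerSeries (Fin n) K →ₐ[K] WS d K)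
    (a ξ : ι → MvPowerSeries (Fin n) K) (u : ι → WS d K) {M : ℕ}
    (hξ : ∀ k, c' (ξ k) = PowerSeries.X ^ M * u k) :
    ∃ B : WS d K, c' (∑ k, a k * ξ k) = PowerSeries.X ^ M * B ∧
      res d K B = ∑ k, constantCoeff (a k) * res d K (u k) := by
  refine ⟨∑ k, c' (a k) * u k, ?_, ?_⟩
  · rw [map_sum, Finset.mul_sum]
    refine Finset.sum_congr rfl fun k _ => ?_
    rw [map_mul, hξ]
    ring
  · rw [map_sum]
    refine Finset.sum_congr rfl fun k _ => ?_
    rw [map_mul, res_hom]

/-- Differences of roots. -/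
theorem root_sub [CharZero K] {M : ℕ} (hM : M ≠ 0) {v v' a a' : WS d K} (hv : v ^ M = a)
    (hv' : v' ^ M = a') (hres : res d K v = res d K v') (hv0 : res d K v ≠ 0) :
    v - v' ∣ a - a' ∧ a - a' ∣ v - v' := by
  have h1 := Commute.geom_sum₂_mul (Commute.all v v') M
  rw [hv, hv'] at h1
  refine ⟨⟨_, by rw [← h1, mul_comm]⟩, ?_⟩
  have h2 : IsUnit (∑ i ∈ Finset.range M, v ^ i * v' ^ (M - 1 - i)) := by
    rw [isUnit_iff_res, map_sum]
    have h3 : ∀ i ∈ Finset.range M, res d K (v ^ i * v' ^ (M - 1 - i)) =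
        res d K v ^ (M - 1) := by
      intro i hi
      rw [Finset.mem_range] at hi
      rw [map_mul, map_pow, map_pow, ← hres, ← pow_add]
      congr 1
      omega
    rw [Finset.sum_congr rfl h3, Finset.sum_const, Finset.card_range, nsmul_eq_mul]
    exact mul_ne_zero (Nat.cast_ne_zero.2 hM) (pow_ne_zero _ hv0)
  obtain ⟨U, hU⟩ := h2
  rw [← hU] at h1
  refine ⟨((U⁻¹ : (WS d K)ˣ) : WS d K), ?_⟩
  rw [← h1, mul_comm (U : WS d K), mul_assoc, Units.mul_inv, mul_one]

/-- The difference of the reparametrised arcs. -/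
theorem diff_assoc {c c' : MvPowerSeries (Fin n) K →ₐ[K] WS d K} {ψ ψ' : WS d K ≃ₐ[K] WS d K}
    {M μ : ℕ} (hM : 1 ≤ M) (hμ : M ≤ μ) {x y : MvPowerSeries (Fin n) K}
    {t' : Fin d → MvPowerSeries (Fin n) K} {a a' v v' q : WS d K}
    (hx : c x = PowerSeries.X ^ M * a) (hx' : c' x = PowerSeries.X ^ M * a')
    (hv : v ^ M = a) (hv' : v' ^ M = a')
    (hψ : ψ PowerSeries.X = PowerSeries.X * v) (hψ' : ψ' PowerSeries.X = PowerSeries.X * v')
    (hψC : ∀ j, ψ (PowerSeries.C (X j)) = c (t' j))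
    (hψC' : ∀ j, ψ' (PowerSeries.C (X j)) = c' (t' j))
    (hvv : PowerSeries.X ^ (μ - M) ∣ v - v') (hu : IsUnit v)
    (hcong : ∀ h, PowerSeries.X ^ μ ∣ c h - c' h) (hq : c' y = c' x * q)
    {U : WS d K} (hU : IsUnit U) (hcU : c y - c' y - (c x - c' x) * q = PowerSeries.X ^ μ * U) :
    Associated (ψ.symm (c y) - ψ'.symm (c' y)) (PowerSeries.X ^ μ) := by
  have hXM : ψ (PowerSeries.X ^ M) = c x := by
    rw [map_pow, hψ, mul_pow, hv, hx]
  have hXM' : ψ' (PowerSeries.X ^ M) = c' x := by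
    rw [map_pow, hψ', mul_pow, hv', hx']
  have hY : ψ'.symm (c' y) = PowerSeries.X ^ M * ψ'.symm q := by
    rw [hq, ← hXM', map_mul, AlgEquiv.symm_apply_apply]
  -- the two automorphisms are congruent
  have h1 : ψ (ψ'.symm q) - ψ' (ψ'.symm q) ∈ Ideal.span {(PowerSeries.X ^ (μ - M + 1) : WS d K)} := by
    apply homW_sub_mem (ψ : WS d K →ₐ[K] WS d K) (ψ' : WS d K →ₐ[K] WS d K)
    · change ψ PowerSeries.X - ψ' PowerSeries.X ∈ _
      rw [hψ, hψ', ← mul_sub, Ideal.mem_span_singleton, pow_succ, mul_comm]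
      exact mul_dvd_mul dvd_rfl hvv
    · intro j
      change ψ (PowerSeries.C (X j)) - ψ' (PowerSeries.C (X j)) ∈ _
      rw [hψC, hψC', Ideal.mem_span_singleton]
      exact (pow_dvd_pow _ (by omega)).trans (hcong _)
  rw [AlgEquiv.apply_symm_apply, Ideal.mem_span_singleton] at h1
  obtain ⟨e, he⟩ := h1
  have h2 : ψ (ψ.symm (c y) - ψ'.symm (c' y)) =
      PowerSeries.X ^ μ * (U - PowerSeries.X * (a * e)) := by
    rw [map_sub, AlgEquiv.apply_symm_apply, hY, map_mul, hXM]
    have h3 : ψ (ψ'.symm q) = q + PowerSeries.X ^ (μ - M + 1) * e := by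
      rw [← he]; ring
    rw [h3]
    have h4 : c y - c x * (q + PowerSeries.X ^ (μ - M + 1) * e) =
        (c y - c' y - (c x - c' x) * q) + (c' y - c' x * q) -
          c x * (PowerSeries.X ^ (μ - M + 1) * e) := by ring
    rw [h4, hcU, ← hq, sub_self, add_zero, hx]
    have h5 : (PowerSeries.X ^ M * a * (PowerSeries.X ^ (μ - M + 1) * e) : WS d K) =
        PowerSeries.X ^ (M + (μ - M + 1)) * (a * e) := by
      rw [pow_add]; ring
    rw [h5, show M + (μ - M + 1) = μ + 1 by omega, pow_succ]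
    ring
  have h3 : IsUnit (U - PowerSeries.X * (a * e)) := by
    rw [isUnit_iff_res] at hU ⊢
    rwa [map_sub, map_mul, res_X, zero_mul, sub_zero]
  have h4 : ψ.symm (c y) - ψ'.symm (c' y) =
      ψ.symm (PowerSeries.X) ^ μ * ψ.symm (U - PowerSeries.X * (a * e)) := by
    rw [← map_pow, ← map_mul, ← h2, AlgEquiv.symm_apply_apply]
  have h5 : Associated (ψ.symm PowerSeries.X) (PowerSeries.X : WS d K) := by
    have h6 : ψ.symm PowerSeries.X * ψ.symm v = PowerSeries.X := by
      rw [← map_mul, ← hψ, AlgEquiv.symm_apply_apply]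
    obtain ⟨V, hV⟩ := hu.map ψ.symm
    exact ⟨V, by rw [hV]; exact h6⟩
  rw [h4]
  exact (associated_mul_unit_left _ _ (h3.map ψ.symm)).trans (h5.pow_pow)

end

end Pool.Agent.Helper85.SB
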