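import Pool.Agent.Helper85.SB.N4
import Pool.Agent.Helper85.R2.Good

/-! Block N5: equisingularity of the new critical variety. -/

namespace Pool.Agent.Helper85.SB

open MvPowerSeries Pool.Agent.Helper38.EQ Pool.Agent.Helper38.GP
open Pool.Agent.Helper38.ED (Rad prime_of_notMem_sq discr_prod)

private theorem N5_ram_inj {d : ℕ} {K : Type} [Field K] {M : ℕ} (hM : M ≠ 0) :
    Function.Injective (ram (d := d) (K := K) hM) := by
  intro x y h
  ext1 n
  have h1 := congrArg (fun f : WS d K => PowerSeries.coeff (M * n) f) h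
  have h2 : ∀ f : WS d K, PowerSeries.coeff (M * n) (ram hM f) = PowerSeries.coeff n f := fun f =>
    PowerSeries.coeff_expand_mul M hM f n
  simpa only [h2] using h1

/-- A series which vanishes on all branches is a multiple of `P`. -/
private theorem N5_dvd {d N : ℕ} {K : Type} [Field K] (p : Proj (d + 1) K)
    (β : R1 (d + 1) K ≃ₐ[K] WS d K) {M : ℕ} (hM : M ≠ 0)
    (G : Fin N → (R1 (d + 2) K →ₐ[K] WS d K))
    (hG : ∀ l b, G l (p.σ.symm (PowerSeries.C b)) = ram hM (β b))
    (hinj : Function.Injective fun l => G l (p.σ.symm PowerSeries.X))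
    {P : Polynomial (R1 (d + 1) K)}
    (hP : P.IsDistinguishedAt (IsLocalRing.maximalIdeal (R1 (d + 1) K)))
    (hPN : P.natDegree = N)
    (hP0 : ∀ l, G l (p.σ.symm (P : PowerSeries (R1 (d + 1) K))) = 0) {φ : R1 (d + 2) K}
    (hφ : ∀ l, G l φ = 0) : p.σ.symm (P : PowerSeries (R1 (d + 1) K)) ∣ φ := by
  classical
  have hcomp := isAdicComplete_mvPowerSeries (d + 1) K
  have hW : (P : PowerSeries (R1 (d + 1) K)).IsWeierstrassDivisorAt
      (IsLocalRing.maximalIdeal (R1 (d + 1) K)) := hP.isWeierstrassDivisorAt (Ideal.IsPrime.ne_top')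
  have hord : (((P : PowerSeries (R1 (d + 1) K)).map
      (Ideal.Quotient.mk (IsLocalRing.maximalIdeal (R1 (d + 1) K)))).order.toNat : WithBot ℕ) =
      P.degree := by
    have h1 : (P : PowerSeries (R1 (d + 1) K)).map
        (Ideal.Quotient.mk (IsLocalRing.maximalIdeal (R1 (d + 1) K))) =
        PowerSeries.X ^ P.natDegree := by
      rw [← Polynomial.polynomial_map_coe, hP.map_eq_X_pow, Polynomial.coe_pow, Polynomial.coe_X]
    rw [h1, PowerSeries.order_X_pow, Polynomial.degree_eq_natDegree hP.monic.ne_zero]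
    rfl
  obtain ⟨hr1, hr2⟩ := hW.isWeierstrassDivisionAt_div_mod (p.σ φ)
  set q := hW.div (p.σ φ)
  set r := hW.mod (p.σ φ)
  have hrdeg : r.degree < P.degree := by
    rw [← hord]
    exact hr1
  have hr0 : r = 0 := by
    by_contra hne
    have h1 : r.natDegree < N := by
      rw [← hPN]
      exact Polynomial.natDegree_lt_natDegree hne hrdeg
    have h2 : ∀ l, ((r.map (β : R1 (d + 1) K →+* WS d K)).map (ram hM)).eval
        (G l (p.σ.symm PowerSeries.X)) = 0 := by
      intro l
      rw [← branch_eval p β hM (G l) (hG l)]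
      have h3 : φ = p.σ.symm (P : PowerSeries (R1 (d + 1) K)) * p.σ.symm q +
          p.σ.symm (r : PowerSeries (R1 (d + 1) K)) := by
        rw [← map_mul, ← map_add, ← hr2, AlgEquiv.symm_apply_apply]
      have h4 := hφ l
      rw [h3, map_add, map_mul, hP0 l, zero_mul, zero_add] at h4
      exact h4
    have h5 := Polynomial.eq_zero_of_natDegree_lt_card_of_eval_eq_zero _ hinj h2 (by
      rw [Fintype.card_fin]
      exact lt_of_le_of_lt (Polynomial.natDegree_map_le.trans Polynomial.natDegree_map_le) h1)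
    rw [Polynomial.map_eq_zero_iff (N5_ram_inj hM), Polynomial.map_eq_zero_iff β.injective] at h5
    exact hne h5
  refine ⟨p.σ.symm q, ?_⟩
  rw [hr0, Polynomial.coe_zero, add_zero] at hr2
  rw [← map_mul, ← hr2, AlgEquiv.symm_apply_apply]

/-- The residue map, as a homomorphism of `K`-algebras. -/
private noncomputable def N5_res (d : ℕ) (K : Type) [Field K] : WS d K →ₐ[K] K :=
  { res d K with
    commutes' := by
      intro a
      have h4 : algebraMap K (WS d K) a = PowerSeries.C (C a) := by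
        rw [IsScalarTower.algebraMap_apply K (MvPowerSeries (Fin d) K) (WS d K)]
        rfl
      rw [h4]
      simp [res] }

/-- A product of powers of `s` (up to units) is one. -/
private theorem N5_prod {R ι : Type} [CommRing R] (x : R) (s : Finset ι) (f : ι → R)
    (h : ∀ i ∈ s, ∃ k, Associated (f i) (x ^ k)) : ∃ k, Associated (∏ i ∈ s, f i) (x ^ k) := by
  classical
  induction s using Finset.induction_on with
  | empty => exact ⟨0, by simp⟩
  | insert a s ha ih =>
    obtain ⟨k, hk⟩ := ih fun i hi => h i (Finset.mem_insert_of_mem hi)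
    obtain ⟨j, hj⟩ := h a (Finset.mem_insert_self a s)
    refine ⟨j + k, ?_⟩
    rw [Finset.prod_insert ha, pow_add]
    exact hj.mul_mul hk

theorem hasOrd_of_homPart {n : ℕ} {K : Type} [Field K] {h : MvPowerSeries (Fin n) K} {a : ℕ}
    {v : Fin n → K} (h1 : ∀ ν : Fin n →₀ ℕ, ν.degree < a → coeff ν h = 0)
    (h2 : homPart h a v ≠ 0) : HasOrd h a := by
  refine ⟨(mem_maximalIdeal_pow_iff a h).2 fun α hα => h1 α ?_, fun h3 => h2 ?_⟩
  · rw [Finsupp.degree_eq_sum]
    exact hα
  · refine Pool.Agent.Helper85.R2.homPart_eq_zero (fun ν hν => ?_) v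
    refine (mem_maximalIdeal_pow_iff (a + 1) h).1 h3 ν ?_
    rw [← Finsupp.degree_eq_sum]
    exact hν

theorem HasOrd.coeff_eq {n : ℕ} {K : Type} [Field K] {h : MvPowerSeries (Fin n) K} {a : ℕ}
    (ho : HasOrd h a) (ν : Fin n →₀ ℕ) (hν : ν.degree < a) : coeff ν h = 0 := by
  refine (mem_maximalIdeal_pow_iff a h).1 ho.1 ν ?_
  rw [← Finsupp.degree_eq_sum]
  exact hν

theorem homPart_prod {n : ℕ} {K ι : Type} [Field K] (s : Finset ι) (h : ι → MvPowerSeries (Fin n) K)
    (a : ι → ℕ) (ho : ∀ k, HasOrd (h k) (a k)) (v : Fin n → K) :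
    (∀ ν : Fin n →₀ ℕ, ν.degree < ∑ k ∈ s, a k → coeff ν (∏ k ∈ s, h k) = 0) ∧
      homPart (∏ k ∈ s, h k) (∑ k ∈ s, a k) v = ∏ k ∈ s, homPart (h k) (a k) v := by
  classical
  induction s using Finset.induction_on with
  | empty =>
    refine ⟨fun ν hν => absurd hν (Nat.not_lt_zero _), ?_⟩
    have := Pool.Agent.Helper85.R2.homPart_C (1 : K) v
    rw [map_one] at this
    simpa using this
  | insert b s hb ih =>
    rw [Finset.prod_insert hb, Finset.sum_insert hb, Finset.prod_insert hb]
    obtain ⟨h1, h2⟩ := homPart_mul (ho b).coeff_eq ih.1 v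
    refine ⟨h1, ?_⟩
    rw [h2, ih.2]

/-- The base coordinates are a set of parameters of the zero set of a distinguished polynomial. -/
theorem isParams_of_dist {n : ℕ} {K : Type} [Field K] (p : Proj n K)
    {a : MvPowerSeries (Fin (n + 1)) K}
    (ha : a ∈ IsLocalRing.maximalIdeal (MvPowerSeries (Fin (n + 1)) K)) (hat : p.tr a ≠ 0)
    {P : Polynomial (R1 n K)} (hP : P.IsDistinguishedAt (IsLocalRing.maximalIdeal (R1 n K)))
    (hP0 : P.natDegree ≠ 0) :
    IsParams (p.σ.symm (P : PowerSeries (R1 n K))) (fun i => p.σ.symm (PowerSeries.C (X i))) := by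
  classical
  have hz : LinIndep (fun i => p.σ.symm (PowerSeries.C (X i))) :=
    (isParams_of_tr p (e := fun _ : Fin 1 => a) (fun _ => ha) (fun _ => hat) one_ne_zero
      (f := a) (by simp)).1
  have hspan : ∀ c ∈ IsLocalRing.maximalIdeal (R1 n K), p.σ.symm (PowerSeries.C c) ∈
      Ideal.span (Set.range fun i : Fin n => p.σ.symm (PowerSeries.C (X i))) := by
    intro c hc
    rw [maximalIdeal_eq_span_X] at hc
    have h1 : Ideal.span (Set.range fun i => (X i : MvPowerSeries (Fin n) K)) ≤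
        Ideal.comap ((p.σ.symm : PowerSeries (R1 n K) →+* SL n K).comp
          (PowerSeries.C (R := R1 n K)))
          (Ideal.span (Set.range fun i : Fin n => p.σ.symm (PowerSeries.C (X i)))) := by
      rw [Ideal.span_le]
      rintro _ ⟨i, rfl⟩
      exact Ideal.subset_span ⟨i, rfl⟩
    exact h1 hc
  have hX : (PowerSeries.X : PowerSeries (R1 n K)) ∈
      IsLocalRing.maximalIdeal (PowerSeries (R1 n K)) := by
    rw [IsLocalRing.mem_maximalIdeal, mem_nonunits_iff, PowerSeries.isUnit_iff_constantCoeff]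
    simp
  have hloc : ∀ φ : PowerSeries (R1 n K), PowerSeries.constantCoeff φ ∈
      IsLocalRing.maximalIdeal (R1 n K) →
      p.σ.symm φ ∈ IsLocalRing.maximalIdeal (MvPowerSeries (Fin (n + 1)) K) := by
    intro φ h1
    rw [IsLocalRing.mem_maximalIdeal, mem_nonunits_iff] at h1 ⊢
    intro h2
    apply h1
    have h3 := h2.map p.σ
    rw [AlgEquiv.apply_symm_apply] at h3
    exact PowerSeries.isUnit_iff_constantCoeff.1 h3
  refine ⟨hz, le_antisymm ?_ ?_⟩
  · rw [(Ideal.IsMaximal.isPrime inferInstance :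
      (IsLocalRing.maximalIdeal (MvPowerSeries (Fin (n + 1)) K)).IsPrime).radical_le_iff,
      Ideal.span_le]
    rintro x (rfl | ⟨i, rfl⟩)
    · refine hloc _ ?_
      have h1 : PowerSeries.constantCoeff (P : PowerSeries (R1 n K)) = P.coeff 0 := by
        rw [← PowerSeries.coeff_zero_eq_constantCoeff_apply, Polynomial.coeff_coe]
      rw [h1]
      exact hP.mem (Nat.pos_of_ne_zero hP0)
    · exact (mem_maximalIdeal_iff_constantCoeff _).2 (hz.1 i)
  · rw [Ideal.radical_eq_sInf]
    refine le_sInf fun Q hQ => ?_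
    obtain ⟨hJ, hQp⟩ := hQ
    have hzQ : ∀ c ∈ IsLocalRing.maximalIdeal (R1 n K), p.σ.symm (PowerSeries.C c) ∈ Q :=
      fun c hc => (Ideal.span_mono (Set.subset_insert _ _)).trans hJ (hspan c hc)
    have hPQ : p.σ.symm (P : PowerSeries (R1 n K)) ∈ Q := hJ (Ideal.subset_span (Set.mem_insert _ _))
    have hXN : p.σ.symm PowerSeries.X ^ P.natDegree ∈ Q := by
      have h1 : (P : PowerSeries (R1 n K)) = PowerSeries.X ^ P.natDegree +
          ∑ i ∈ Finset.range P.natDegree, PowerSeries.C (P.coeff i) * PowerSeries.X ^ i := by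
        have h2 : P = Polynomial.X ^ P.natDegree +
            ∑ i ∈ Finset.range P.natDegree, Polynomial.C (P.coeff i) * Polynomial.X ^ i :=
          hP.monic.as_sum
        have h3 := congrArg (fun F : Polynomial (R1 n K) => (F : PowerSeries (R1 n K))) h2
        rw [Polynomial.coe_add, Polynomial.coe_pow, Polynomial.coe_X,
          ← Polynomial.coeToPowerSeries.ringHom_apply (φ := ∑ i ∈ Finset.range P.natDegree,
            Polynomial.C (P.coeff i) * Polynomial.X ^ i), map_sum] at h3
        rw [h3]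
        congr 1
        refine Finset.sum_congr rfl fun i _ => ?_
        rw [map_mul, map_pow, Polynomial.coeToPowerSeries.ringHom_apply,
          Polynomial.coeToPowerSeries.ringHom_apply, Polynomial.coe_C, Polynomial.coe_X]
      have h4 : p.σ.symm (∑ i ∈ Finset.range P.natDegree,
          PowerSeries.C (P.coeff i) * PowerSeries.X ^ i) ∈ Q := by
        rw [map_sum]
        refine Q.sum_mem fun i hi => ?_
        rw [map_mul]
        exact Q.mul_mem_right _ (hzQ _ (hP.mem (Finset.mem_range.1 hi)))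
      have h5 : p.σ.symm PowerSeries.X ^ P.natDegree = p.σ.symm (P : PowerSeries (R1 n K)) -
          p.σ.symm (∑ i ∈ Finset.range P.natDegree,
            PowerSeries.C (P.coeff i) * PowerSeries.X ^ i) := by
        rw [← map_sub, ← map_pow]
        congr 1
        conv_rhs => rw [h1]
        rw [add_sub_cancel_right]
      rw [h5]
      exact Q.sub_mem hPQ h4
    have hXQ : p.σ.symm PowerSeries.X ∈ Q := hQp.mem_of_pow_mem _ hXN
    intro h hh
    obtain ⟨q, hq⟩ : (PowerSeries.X : PowerSeries (R1 n K)) ∣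
        p.σ h - PowerSeries.C (PowerSeries.constantCoeff (p.σ h)) := by
      rw [PowerSeries.X_dvd_iff, map_sub, PowerSeries.constantCoeff_C, sub_self]
    have h4 : h = p.σ.symm (PowerSeries.C (PowerSeries.constantCoeff (p.σ h))) +
        p.σ.symm PowerSeries.X * p.σ.symm q := by
      rw [← map_mul, ← map_add, ← hq, add_sub_cancel, AlgEquiv.symm_apply_apply]
    have h5 : PowerSeries.constantCoeff (p.σ h) ∈ IsLocalRing.maximalIdeal (R1 n K) := by
      rw [IsLocalRing.mem_maximalIdeal, mem_nonunits_iff]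
      intro h6
      have h7 := (PowerSeries.isUnit_iff_constantCoeff.2 h6).map p.σ.symm
      rw [AlgEquiv.symm_apply_apply] at h7
      exact hh h7
    rw [h4]
    exact Q.add_mem (hzQ _ h5) (Q.mul_mem_right _ hXQ)

/-- (N5) Let the germs `h k` vanish exactly on the branches in `T k`, with the orders and the
transversality of (N4), and let the differences of the roots of different branches be powers
of `s`. Then the radical of `∏ h k` is principal, generated by some `g`, and `g = 0` is
equisingular along `J`. Proof: `H k` from (N4); (R2) gives `P` over `WS d K` with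
`P.map (ram hM) = ∏ (Y - Y_l)`; `P' = P.map β⁻¹`, `g = σ⁻¹ P'`. `H k ∣ P'` and `P' ∣ ∏ H k` by (R3). The
ideal of `g` is radical: Weierstrass division by `P'`, a remainder whose power is divisible by `P'`
vanishes at all `Y_l`. `discr P'` maps to `∏ (Y_l - Y_l')`, so it is a power of `x₁` up to a unit
(R4), and not a unit as `2 ≤ N`; so `IsCrit g J z x₁ (x₁)`, `z j = σ⁻¹ (C (X j))`. Transversality of
`g`: (N2''). -/
theorem equi_one {d N : ℕ} {K : Type} [Field K] [IsAlgClosed K] [CharZero K] {𝒞 : ProjClass K}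
    (h𝒞 : HasLin 𝒞) (p : Proj (d + 1) K)
    (hp : ∀ j, IsLinear (p.σ.symm (PowerSeries.C (X j))))
    {J : Ideal (R1 (d + 2) K)} {x₁ : R1 (d + 1) K} (hx₁ : HasOrd x₁ 1)
    (hJ : p.img J = Ideal.span {x₁}) {a : R1 (d + 2) K} (ha : a ∈ J) (hat : p.tr a ≠ 0)
    (β : R1 (d + 1) K ≃ₐ[K] WS d K) (hβ : β x₁ = PowerSeries.X) {M : ℕ} (hM : M ≠ 0)
    (G : Fin N → (R1 (d + 2) K →ₐ[K] WS d K)) (hN : 2 ≤ N)
    (hG : ∀ l b, G l (p.σ.symm (PowerSeries.C b)) = ram hM (β b))
    (hdiff : ∀ l l', l ≠ l' → ∃ k, 1 ≤ k ∧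
      Associated (G l (p.σ.symm PowerSeries.X) - G l' (p.σ.symm PowerSeries.X))
        (PowerSeries.X ^ k))
    {κ : Type} [Fintype κ] (h : κ → R1 (d + 2) K) (T : κ → Finset (Fin N))
    (ho : ∀ k, HasOrd (h k) (T k).card)
    (ht : ∀ k, homPart (h k) (T k).card (fun j => p.tr (X j)) ≠ 0)
    (hz : ∀ k, ∀ l ∈ T k, G l (h k) = 0) (hT : ∀ l, ∃ k, l ∈ T k) (hhJ : ∀ k, h k ∈ J) :
    ∃ g, Ideal.span {g} = (Ideal.span {∏ k, h k}).radical ∧ Equi 𝒞 1 (d + 2) g J := by
  classical
  have hcomp := isAdicComplete_mvPowerSeries (d + 1) K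
  have hinj : Function.Injective fun l => G l (p.σ.symm PowerSeries.X) := by
    intro l l' hl
    by_contra hne
    obtain ⟨k, -, hk⟩ := hdiff l l' hne
    have h0 : G l (p.σ.symm PowerSeries.X) - G l' (p.σ.symm PowerSeries.X) = 0 :=
      sub_eq_zero.2 hl
    rw [h0] at hk
    exact pow_ne_zero k (PowerSeries.X_ne_zero (R := MvPowerSeries (Fin d) K))
      ((associated_zero_iff_eq_zero _).1 hk.symm)
  choose H U hHU hH using fun k => wpoly_eq p β hM G hG hinj (ho k) (ht k) (hz k)
  obtain ⟨P0, hP0⟩ := exists_union hM (fun l => G l (p.σ.symm PowerSeries.X)) hinj T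
    (fun k => (H k).map (β : R1 (d + 1) K →+* WS d K)) hH Finset.univ
    (fun l => ⟨fun _ => hT l, fun _ => Finset.mem_univ l⟩)
  set Q : Polynomial (WS d K) :=
    ∏ l, (Polynomial.X - Polynomial.C (G l (p.σ.symm PowerSeries.X))) with hQ
  set P : Polynomial (R1 (d + 1) K) := P0.map (β.symm : WS d K →+* R1 (d + 1) K) with hPdef
  have hββ : (β : R1 (d + 1) K →+* WS d K).comp (β.symm : WS d K →+* R1 (d + 1) K) =
      RingHom.id _ := RingHom.ext fun x => β.apply_symm_apply x
  have hββ' : (β.symm : WS d K →+* R1 (d + 1) K).comp (β : R1 (d + 1) K →+* WS d K) =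
      RingHom.id _ := RingHom.ext fun x => β.symm_apply_apply x
  have hPβ : P.map (β : R1 (d + 1) K →+* WS d K) = P0 := by
    rw [hPdef, Polynomial.map_map, hββ, Polynomial.map_id]
  have hram := N5_ram_inj (d := d) (K := K) hM
  have hQm : Q.Monic := Polynomial.monic_prod_of_monic _ _ fun l _ => Polynomial.monic_X_sub_C _
  have hQN : Q.natDegree = N := by
    rw [hQ, Polynomial.natDegree_prod_of_monic _ _ fun l _ => Polynomial.monic_X_sub_C _]
    simp
  have hP0m : P0.Monic := Polynomial.monic_of_injective hram (by rw [hP0]; exact hQm)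
  have hPm : P.Monic := hP0m.map _
  have hPN : P.natDegree = N := by
    rw [hPdef, hP0m.natDegree_map, ← hQN, ← hP0, hP0m.natDegree_map]
  have hYm : ∀ l, G l (p.σ.symm PowerSeries.X) ∈ IsLocalRing.maximalIdeal (WS d K) := by
    intro l
    refine hom_mem (N5_res d K) (G l) ?_
    rw [IsLocalRing.mem_maximalIdeal, mem_nonunits_iff]
    intro hu
    have hu' := hu.map p.σ
    rw [AlgEquiv.apply_symm_apply, PowerSeries.isUnit_iff_constantCoeff] at hu'
    simp at hu'
  have hPc : (P.map ((ram hM).comp (β : R1 (d + 1) K →+* WS d K))) = Q := by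
    rw [← Polynomial.map_map, hPβ, hP0]
  have hPd : P.IsDistinguishedAt (IsLocalRing.maximalIdeal (R1 (d + 1) K)) := by
    refine ⟨⟨fun {i} hi => ?_⟩, hPm⟩
    by_contra hcon
    rw [IsLocalRing.mem_maximalIdeal, mem_nonunits_iff, not_not] at hcon
    have h1 := hcon.map ((ram hM).comp (β : R1 (d + 1) K →+* WS d K))
    rw [← Polynomial.coeff_map, hPc] at h1
    have h2 : Q.map (Ideal.Quotient.mk (IsLocalRing.maximalIdeal (WS d K))) =
        Polynomial.X ^ N := by
      rw [hQ, Polynomial.map_prod]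
      have h3 : ∀ l, Polynomial.map (Ideal.Quotient.mk (IsLocalRing.maximalIdeal (WS d K)))
          (Polynomial.X - Polynomial.C (G l (p.σ.symm PowerSeries.X))) = Polynomial.X := by
        intro l
        rw [Polynomial.map_sub, Polynomial.map_X, Polynomial.map_C,
          Ideal.Quotient.eq_zero_iff_mem.2 (hYm l), Polynomial.C_0, sub_zero]
      simp only [h3]
      rw [Finset.prod_const, Finset.card_univ, Fintype.card_fin]
    have h4 : Q.coeff i ∈ IsLocalRing.maximalIdeal (WS d K) := by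
      rw [← Ideal.Quotient.eq_zero_iff_mem, ← Polynomial.coeff_map, h2, Polynomial.coeff_X_pow,
        if_neg]
      rw [hPN] at hi
      exact hi.ne
    exact h4 h1
  have hGP : ∀ l, G l (p.σ.symm (P : PowerSeries (R1 (d + 1) K))) = 0 := by
    intro l
    rw [branch_eval p β hM (G l) (hG l), hPβ, hP0, hQ, Polynomial.eval_prod]
    exact Finset.prod_eq_zero (Finset.mem_univ l) (by simp)
  set g : R1 (d + 2) K := p.σ.symm (P : PowerSeries (R1 (d + 1) K)) with hg
  have hdvd : ∀ k, h k ∣ g := by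
    intro k
    have h1 : (H k).map (β : R1 (d + 1) K →+* WS d K) ∣ P0 := by
      refine dvd_of_map_dvd hM ((hHU k).isDistinguishedAt.monic.map _) ?_
      rw [hH k, hP0]
      exact Finset.prod_dvd_prod_of_subset _ _ _ (Finset.subset_univ _)
    have h2 : H k ∣ P := by
      have h3 := Polynomial.map_dvd (β.symm : WS d K →+* R1 (d + 1) K) h1
      rwa [Polynomial.map_map, hββ', Polynomial.map_id] at h3
    have h3 : (H k : PowerSeries (R1 (d + 1) K)) ∣ (P : PowerSeries (R1 (d + 1) K)) := by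
      obtain ⟨c, hc⟩ := h2
      exact ⟨c, by rw [hc, Polynomial.coe_mul]⟩
    have h4 : p.σ (h k) ∣ (P : PowerSeries (R1 (d + 1) K)) := by
      rw [(hHU k).eq_mul]
      exact ((hHU k).isUnit.mul_right_dvd).2 h3
    have h5 := map_dvd p.σ.symm h4
    rwa [AlgEquiv.symm_apply_apply] at h5
  have hdvd' : ∀ {φ : R1 (d + 2) K}, (∀ l, G l φ = 0) → g ∣ φ := fun {φ} hφ =>
    N5_dvd p β hM G hG hinj hPd hPN hGP hφ
  have hrad : Rad g := by
    intro y n hy
    refine hdvd' fun l => ?_
    obtain ⟨c, hc⟩ := hy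
    have h1 : G l y ^ n = 0 := by
      rw [← map_pow, hc, map_mul, hGP, zero_mul]
    exact eq_zero_of_pow_eq_zero h1
  have hspan : Ideal.span {g} = (Ideal.span {∏ k, h k}).radical := by
    refine Rad.span_eq hrad ⟨1, ?_⟩ ⟨Fintype.card κ, ?_⟩
    · rw [pow_one]
      refine hdvd' fun l => ?_
      obtain ⟨k, hk⟩ := hT l
      rw [map_prod]
      exact Finset.prod_eq_zero (Finset.mem_univ k) (hz k l hk)
    · have h1 : (∏ k, h k) ∣ ∏ _k : κ, g := Finset.prod_dvd_prod_of_dvd _ _ fun k _ => hdvd k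
      rwa [Finset.prod_const, Finset.card_univ] at h1
  obtain ⟨k0, -⟩ := hT ⟨0, by omega⟩
  have hgJ : g ∈ J := Ideal.mem_of_dvd _ (hdvd k0) (hhJ k0)
  have hx1 : x₁ ∈ IsLocalRing.maximalIdeal (R1 (d + 1) K) := by
    have := hx₁.1
    rwa [pow_one] at this
  have hxp : Prime x₁ := prime_of_notMem_sq hx1 hx₁.2
  have ham : a ∈ IsLocalRing.maximalIdeal (R1 (d + 2) K) := by
    rw [IsLocalRing.mem_maximalIdeal, mem_nonunits_iff]
    intro hu
    have h1 : J = ⊤ := Ideal.eq_top_of_isUnit_mem _ ha hu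
    have h2 : (1 : R1 (d + 1) K) ∈ p.img J := by
      rw [Proj.img, Ideal.mem_comap, h1, map_one]
      have h3 := Ideal.mem_map_of_mem p.σ
        (Submodule.mem_top : (1 : R1 (d + 2) K) ∈ (⊤ : Ideal (R1 (d + 2) K)))
      rwa [map_one] at h3
    rw [hJ, Ideal.mem_span_singleton] at h2
    exact hxp.not_isUnit (isUnit_of_dvd_one h2)
  -- the discriminant
  obtain ⟨k', hk', hk0⟩ : ∃ k', Associated P.discr (x₁ ^ k') ∧ k' ≠ 0 := by
    have h1 : ((ram hM).comp (β : R1 (d + 1) K →+* WS d K)) P.discr = Q.discr := by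
      rw [← hPc]
      exact (discr_map _ P hPm (by rw [hPN]; omega)).symm
    have h2 := discr_prod fun l => G l (p.σ.symm PowerSeries.X)
    obtain ⟨k, hk⟩ := N5_prod (PowerSeries.X : WS d K) Finset.univ
      (fun i => ∏ j ∈ Finset.univ.filter (fun j => j ≠ i),
        (G i (p.σ.symm PowerSeries.X) - G j (p.σ.symm PowerSeries.X)))
      (fun i _ => N5_prod _ _ _ fun j hj => by
        obtain ⟨k, -, hk⟩ := hdiff i j (Finset.mem_filter.1 hj).2.symm
        exact ⟨k, hk⟩)
    have hkne : k ≠ 0 := by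
      rintro rfl
      rw [pow_zero] at hk
      have h3 : (⟨0, by omega⟩ : Fin N) ≠ ⟨1, by omega⟩ := by
        intro h4
        have := congrArg Fin.val h4
        simp at this
      obtain ⟨j, hj1, hj⟩ := hdiff _ _ h3
      have h4 : (PowerSeries.X : WS d K) ∣ G ⟨0, by omega⟩ (p.σ.symm PowerSeries.X) -
          G ⟨1, by omega⟩ (p.σ.symm PowerSeries.X) :=
        (dvd_pow_self _ (by omega)).trans hj.symm.dvd
      have h5 : (PowerSeries.X : WS d K) ∣ ∏ i, ∏ j ∈ Finset.univ.filter (fun j => j ≠ i),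
          (G i (p.σ.symm PowerSeries.X) - G j (p.σ.symm PowerSeries.X)) := by
        refine h4.trans (Dvd.dvd.trans ?_ (Finset.dvd_prod_of_mem
          (fun i => ∏ j ∈ Finset.univ.filter (fun j => j ≠ i),
            (G i (p.σ.symm PowerSeries.X) - G j (p.σ.symm PowerSeries.X)))
          (Finset.mem_univ (⟨0, by omega⟩ : Fin N))))
        exact Finset.dvd_prod_of_mem (fun j => G ⟨0, by omega⟩ (p.σ.symm PowerSeries.X) -
          G j (p.σ.symm PowerSeries.X)) (Finset.mem_filter.2 ⟨Finset.mem_univ _, h3.symm⟩)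
      have h6 : IsUnit (PowerSeries.X : WS d K) := isUnit_of_dvd_one (h5.trans hk.dvd)
      rw [PowerSeries.isUnit_iff_constantCoeff] at h6
      simp at h6
    have h3 : Associated (ram hM (β P.discr)) (PowerSeries.X ^ k) := by
      have h4 : ram hM (β P.discr) = Q.discr := h1
      rw [h4]
      exact h2.trans hk
    obtain ⟨k', hk', hkk⟩ := assoc_of_ram hM h3
    refine ⟨k', ?_, ?_⟩
    · have h5 := hk'.map (β.symm : WS d K →+* R1 (d + 1) K)
      have h6 : (β.symm : WS d K →+* R1 (d + 1) K) (β P.discr) = P.discr := β.symm_apply_apply _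
      have h7 : (β.symm : WS d K →+* R1 (d + 1) K) (PowerSeries.X ^ k') = x₁ ^ k' := by
        rw [map_pow, ← hβ]
        congr 1
        exact β.symm_apply_apply _
      rwa [h6, h7] at h5
    · rintro rfl
      exact hkne (by rw [hkk, mul_zero])
  have hredP : Ideal.span {x₁} = (Ideal.span {P.discr}).radical := by
    refine Rad.span_eq (fun y n hy => hxp.dvd_of_dvd_pow hy) ⟨1, ?_⟩ ⟨k', hk'.dvd⟩
    rw [pow_one]
    exact (dvd_pow_self _ hk0).trans hk'.symm.dvd
  -- the transversality
  obtain ⟨hc1, hc2⟩ := homPart_prod Finset.univ h (fun k => (T k).card) ho (fun j => p.tr (X j))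
  have hc3 : homPart (∏ k, h k) (∑ k, (T k).card) (fun j => p.tr (X j)) ≠ 0 := by
    rw [hc2]
    exact Finset.prod_ne_zero_iff.2 fun k _ => ht k
  obtain ⟨b, hb1, hb2⟩ := exists_ord_of_dvd (hasOrd_of_homPart hc1 hc3) hc3
    (hdvd' (φ := ∏ k, h k) fun l => by
      obtain ⟨k, hk⟩ := hT l
      rw [map_prod]
      exact Finset.prod_eq_zero (Finset.mem_univ k) (hz k l hk))
  have htr : Transversal g (fun i => p.σ.symm (PowerSeries.C (X i))) := by
    refine ⟨fun j => p.tr (X j), b, fun i => ?_, hb1.coeff_eq, hb2⟩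
    rw [← p.tr_eq_lin]
    unfold Proj.tr
    rw [AlgEquiv.apply_symm_apply, PowerSeries.coeff_C, if_neg one_ne_zero, map_zero]
  refine ⟨g, hspan, hgJ, fun i => p.σ.symm (PowerSeries.C (X i)), h𝒞 _ _ _ ⟨hp, htr⟩,
    isParams_of_dist p ham hat hPd (by rw [hPN]; omega), permissible_of_tr p ha hat, x₁,
    Ideal.span {x₁}, ⟨⟨p.σ⟩, P, fun i => p.σ.apply_symm_apply _, ⟨1, hPd, isUnit_one, ?_⟩, hredP,
      hJ.symm⟩, hx1, hx₁.2, rfl⟩
  rw [mul_one]
  exact p.σ.apply_symm_apply _

end Pool.Agent.Helper85.SB
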