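import Pool.Agent.Helper85.SB.Defs
import Pool.Agent.Helper80.SP.Coord
import Pool.Agent.Helper38.EQ.AdicComplete

/-! Tools for the ring `K⟦w⟧⟦s⟧`: residues, automorphisms, roots. -/

namespace Pool.Agent.Helper85.SB

open MvPowerSeries Pool.Agent.Helper38.EQ Pool.Agent.Helper38.GP

section

variable {d : ℕ} {K : Type} [Field K]

theorem res_apply (x : WS d K) : res d K x = constantCoeff (PowerSeries.constantCoeff x) := rfl

theorem isUnit_iff_res (x : WS d K) : IsUnit x ↔ res d K x ≠ 0 := by
  rw [PowerSeries.isUnit_iff_constantCoeff, MvPowerSeries.isUnit_iff_constantCoeff,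
    isUnit_iff_ne_zero]
  rfl

theorem mem_mW (x : WS d K) : x ∈ IsLocalRing.maximalIdeal (WS d K) ↔ res d K x = 0 := by
  rw [IsLocalRing.mem_maximalIdeal, mem_nonunits_iff, isUnit_iff_res, not_not]

theorem res_X : res d K PowerSeries.X = 0 := by
  rw [res_apply, PowerSeries.constantCoeff_X, map_zero]

theorem res_C (a : MvPowerSeries (Fin d) K) : res d K (PowerSeries.C a) = constantCoeff a := by
  rw [res_apply, PowerSeries.constantCoeff_C]

theorem mW_le {J : Ideal (WS d K)} (hX : PowerSeries.X ∈ J)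
    (hC : ∀ j : Fin d, PowerSeries.C (X j) ∈ J) : IsLocalRing.maximalIdeal (WS d K) ≤ J := by
  intro x hx
  have h1 : x - PowerSeries.C (PowerSeries.constantCoeff x) ∈ J := by
    have h2 : (PowerSeries.X : WS d K) ∣ x - PowerSeries.C (PowerSeries.constantCoeff x) := by
      rw [PowerSeries.X_dvd_iff, map_sub, PowerSeries.constantCoeff_C, sub_self]
    obtain ⟨q, hq⟩ := h2
    rw [hq]
    exact Ideal.mul_mem_right _ _ hX
  have h2 : PowerSeries.C (PowerSeries.constantCoeff x) ∈ J := by
    rw [mem_mW, res_apply] at hx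
    have h3 : PowerSeries.constantCoeff x ∈
        IsLocalRing.maximalIdeal (MvPowerSeries (Fin d) K) := by
      rw [mem_maximalIdeal_iff_constantCoeff]
      exact hx
    rw [maximalIdeal_eq_span_X] at h3
    have h4 : Ideal.span (Set.range fun i => (X i : MvPowerSeries (Fin d) K)) ≤
        Ideal.comap (PowerSeries.C (R := MvPowerSeries (Fin d) K)) J := by
      rw [Ideal.span_le]
      rintro _ ⟨i, rfl⟩
      exact hC i
    exact h4 h3
  have h3 := Ideal.add_mem _ h1 h2
  rwa [sub_add_cancel] at h3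

/-- Automorphisms of `K⟦w⟧⟦s⟧`. -/
theorem exists_aut (z : WS d K) (w : Fin d → WS d K) (hz : res d K z = 0)
    (hw : ∀ j, res d K (w j) = 0)
    (h : IsLocalRing.maximalIdeal (WS d K) ≤ Ideal.span {z} ⊔ Ideal.span (Set.range w)) :
    ∃ ψ : WS d K ≃ₐ[K] WS d K, ψ PowerSeries.X = z ∧ ∀ j, ψ (PowerSeries.C (X j)) = w j := by
  let y : Fin (d + 1) → MvPowerSeries (Fin (d + 1)) K := fun i =>
    (finSuccEquiv K d).symm (Fin.cons (α := fun _ => WS d K) z w i)
  have hy0 : y 0 = (finSuccEquiv K d).symm z := rfl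
  have hys : ∀ j : Fin d, y j.succ = (finSuccEquiv K d).symm (w j) := fun j => rfl
  have hm : ∀ x : MvPowerSeries (Fin (d + 1)) K,
      x ∈ IsLocalRing.maximalIdeal (MvPowerSeries (Fin (d + 1)) K) ↔
        finSuccEquiv K d x ∈ IsLocalRing.maximalIdeal (WS d K) := by
    intro x
    rw [IsLocalRing.mem_maximalIdeal, mem_nonunits_iff, IsLocalRing.mem_maximalIdeal,
      mem_nonunits_iff, not_iff_not]
    constructor
    · intro hx
      exact hx.map (finSuccEquiv K d)
    · intro hx
      have h1 := hx.map (finSuccEquiv K d).symm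
      rwa [AlgEquiv.symm_apply_apply] at h1
  have hspan : Ideal.span (Set.range y) =
      IsLocalRing.maximalIdeal (MvPowerSeries (Fin (d + 1)) K) := by
    apply le_antisymm
    · rw [Ideal.span_le]
      rintro _ ⟨i, rfl⟩
      change y i ∈ IsLocalRing.maximalIdeal _
      rw [hm]
      refine Fin.cases ?_ (fun i => ?_) i
      · rw [hy0, AlgEquiv.apply_symm_apply, mem_mW]
        exact hz
      · rw [hys, AlgEquiv.apply_symm_apply, mem_mW]
        exact hw i
    · intro x hx
      rw [hm] at hx
      have h1 := h hx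
      have h2 : Ideal.span {z} ⊔ Ideal.span (Set.range w) ≤
          Ideal.comap ((finSuccEquiv K d).symm : WS d K →+* MvPowerSeries (Fin (d + 1)) K)
            (Ideal.span (Set.range y)) := by
        rw [sup_le_iff, Ideal.span_le, Ideal.span_le]
        constructor
        · rintro _ rfl
          exact Ideal.subset_span ⟨0, rfl⟩
        · rintro _ ⟨j, rfl⟩
          exact Ideal.subset_span ⟨j.succ, rfl⟩
      have h3 : (finSuccEquiv K d).symm (finSuccEquiv K d x) ∈ Ideal.span (Set.range y) := h2 h1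
      rwa [AlgEquiv.symm_apply_apply] at h3
  obtain ⟨τ, hτ⟩ := exists_algEquiv y hspan
  refine ⟨((finSuccEquiv K d).symm.trans τ).trans (finSuccEquiv K d), ?_, fun j => ?_⟩
  · change finSuccEquiv K d (τ ((finSuccEquiv K d).symm PowerSeries.X)) = z
    rw [← finSuccEquiv_X_zero, AlgEquiv.symm_apply_apply, hτ, hy0, AlgEquiv.apply_symm_apply]
  · change finSuccEquiv K d (τ ((finSuccEquiv K d).symm (PowerSeries.C (X j)))) = w j
    rw [← finSuccEquiv_X_succ, AlgEquiv.symm_apply_apply, hτ, hys, AlgEquiv.apply_symm_apply]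

/-- Two homomorphisms from `K⟦w⟧⟦s⟧` that are congruent on the variables are congruent. -/
theorem homW_sub_mem (G G' : WS d K →ₐ[K] WS d K) (J : Ideal (WS d K))
    (hX : G PowerSeries.X - G' PowerSeries.X ∈ J)
    (hC : ∀ j : Fin d, G (PowerSeries.C (X j)) - G' (PowerSeries.C (X j)) ∈ J) (f : WS d K) :
    G f - G' f ∈ J := by
  have h1 := Pool.Agent.Helper80.SP.hom_sub_mem
    (G.comp (finSuccEquiv K d : MvPowerSeries (Fin (d + 1)) K →ₐ[K] WS d K))
    (G'.comp (finSuccEquiv K d : MvPowerSeries (Fin (d + 1)) K →ₐ[K] WS d K)) J (fun i => by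
      refine Fin.cases ?_ (fun i => ?_) i
      · change G (finSuccEquiv K d (X 0)) - G' (finSuccEquiv K d (X 0)) ∈ J
        rw [finSuccEquiv_X_zero]
        exact hX
      · change G (finSuccEquiv K d (X i.succ)) - G' (finSuccEquiv K d (X i.succ)) ∈ J
        rw [finSuccEquiv_X_succ]
        exact hC i) ((finSuccEquiv K d).symm f)
  change G (finSuccEquiv K d ((finSuccEquiv K d).symm f)) -
    G' (finSuccEquiv K d ((finSuccEquiv K d).symm f)) ∈ J at h1
  rwa [AlgEquiv.apply_symm_apply] at h1

/-- Roots with a given residue. -/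
theorem exists_root_res [CharZero K] {M : ℕ} (hM : M ≠ 0) (a : WS d K) (r : K) (hr0 : r ≠ 0)
    (hr : r ^ M = res d K a) : ∃ v : WS d K, v ^ M = a ∧ res d K v = r := by
  have hcomp : IsAdicComplete (IsLocalRing.maximalIdeal (WS d K)) (WS d K) :=
    isAdicComplete_powerSeries d K
  have hhens : HenselianRing (WS d K) (IsLocalRing.maximalIdeal (WS d K)) := inferInstance
  let c : WS d K := PowerSeries.C (C r)
  have hc : res d K c = r := by rw [res_C, constantCoeff_C]
  obtain ⟨v, hv, hv2⟩ := hhens.is_henselian (Polynomial.X ^ M - Polynomial.C a)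
    (Polynomial.monic_X_pow_sub_C a hM) c (by
      rw [Polynomial.eval_sub, Polynomial.eval_pow, Polynomial.eval_X, Polynomial.eval_C, mem_mW,
        map_sub, map_pow, hc, hr, sub_self]) (by
      have h1 : IsUnit ((Polynomial.derivative (Polynomial.X ^ M - Polynomial.C a)).eval c) := by
        rw [isUnit_iff_res, Polynomial.derivative_sub, Polynomial.derivative_X_pow,
          Polynomial.derivative_C, sub_zero, Polynomial.eval_mul, Polynomial.eval_pow,
          Polynomial.eval_X, Polynomial.eval_C, map_mul, map_pow, hc, map_natCast]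
        exact mul_ne_zero (Nat.cast_ne_zero.2 hM) (pow_ne_zero _ hr0)
      exact h1.map (Ideal.Quotient.mk (IsLocalRing.maximalIdeal (WS d K))))
  refine ⟨v, ?_, ?_⟩
  · have h1 : (Polynomial.X ^ M - Polynomial.C a).eval v = 0 := hv
    rw [Polynomial.eval_sub, Polynomial.eval_pow, Polynomial.eval_X, Polynomial.eval_C,
      sub_eq_zero] at h1
    exact h1
  · rw [mem_mW, map_sub, hc, sub_eq_zero] at hv2
    exact hv2

end

end Pool.Agent.Helper85.SB
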