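import Pool.Agent.Helper38.GP.CurveId
import Pool.Agent.Helper38.GP.LiftRoots
import Pool.Agent.Helper38.GP.NegA

/-!
Unions of smooth hypersurface germs, codimension `2`: definitions.
-/

namespace Pool.Agent.Helper85.SB

open MvPowerSeries Pool.Agent.Helper38.EQ Pool.Agent.Helper38.GP

/-- The order of a power series is `k`. -/
def HasOrd {n : ℕ} {K : Type} [Field K] (h : MvPowerSeries (Fin n) K) (k : ℕ) : Prop :=
  h ∈ IsLocalRing.maximalIdeal (MvPowerSeries (Fin n) K) ^ k ∧
    h ∉ IsLocalRing.maximalIdeal (MvPowerSeries (Fin n) K) ^ (k + 1)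

/-- The class of the transversal projections. -/
def Trans (K : Type) [Field K] : ProjClass K := fun _ f z => Transversal f z

/-- The residue map of `K⟦w⟧⟦s⟧`. -/
noncomputable def res (d : ℕ) (K : Type) [Field K] : WS d K →+* K :=
  (constantCoeff (σ := Fin d) (R := K)).comp
    (PowerSeries.constantCoeff (R := MvPowerSeries (Fin d) K))

/-- The roots of an equisingular family `g = 0` of plane curve germs with axis `I`, in
coordinates `x, y, t`, `I = (x, y)`: after `x = s ^ M` the reduced equation is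
`∏ (y - s ^ M b_l(s, t))`. `G l` is the arc `(s ^ M, s ^ M b_l, t)`. -/
structure Fam {d : ℕ} {K : Type} [Field K] (g : MvPowerSeries (Fin (d + 2)) K)
    (I : Ideal (MvPowerSeries (Fin (d + 2)) K)) where
  /-- the number of roots -/
  N : ℕ
  /-- the ramification -/
  M : ℕ
  two : 2 ≤ N
  hM : 1 ≤ M
  /-- the coordinates -/
  x : MvPowerSeries (Fin (d + 2)) K
  y : MvPowerSeries (Fin (d + 2)) K
  t : Fin d → MvPowerSeries (Fin (d + 2)) K
  hI : I = Ideal.span {x, y}
  li : LinIndep (Sum.elim ![x, y] t)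
  /-- the arcs -/
  G : Fin N → (MvPowerSeries (Fin (d + 2)) K →ₐ[K] WS d K)
  /-- the slopes -/
  b : Fin N → WS d K
  Gx : ∀ l, G l x = PowerSeries.X ^ M
  Gy : ∀ l, G l y = PowerSeries.X ^ M * b l
  Gt : ∀ l j, G l (t j) = PowerSeries.C (X j)
  diff : ∀ l l', l ≠ l' → ∃ k, Associated (G l y - G l' y) (PowerSeries.X ^ k)
  /-- dichotomy: a divisor of a power of `g` vanishes on a branch or is a power of `s` -/
  dich : ∀ (h : MvPowerSeries (Fin (d + 2)) K) (k : ℕ), h ∣ g ^ k → ∀ l,
    G l h = 0 ∨ ∃ κ, Associated (G l h) (PowerSeries.X ^ κ)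
  /-- the radical of a divisor of a power of `g` is principal, generated by a series whose order
  is the number of branches on which it vanishes -/
  rad : ∀ (h : MvPowerSeries (Fin (d + 2)) K) (k : ℕ), h ∣ g ^ k → ∃ h₀,
    (Ideal.span {h}).radical = Ideal.span {h₀} ∧
      ∃ L : Finset (Fin N), (∀ l, l ∈ L ↔ G l h = 0) ∧ HasOrd h₀ L.card
  /-- `g` vanishes on all branches -/
  Gg : ∀ l, G l g = 0

/-- The double curves of the union of the smooth sheets `e_i = 0`, as families of branches: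
`c l` is the arc `(ξ, t) = (s ^ M u_l(s, t), t)`. -/
structure SFam {d m : ℕ} {K : Type} [Field K] (e : Fin m → MvPowerSeries (Fin (d + 3)) K)
    (I : Ideal (MvPowerSeries (Fin (d + 3)) K)) where
  /-- the number of branches -/
  N : ℕ
  /-- the ramification -/
  M : ℕ
  two : 2 ≤ N
  hM : 1 ≤ M
  /-- the coordinates -/
  ξ : Fin 3 → MvPowerSeries (Fin (d + 3)) K
  t : Fin d → MvPowerSeries (Fin (d + 3)) K
  hI : I = Ideal.span (Set.range ξ)
  li : LinIndep (Sum.elim ξ t)
  /-- the arcs -/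
  c : Fin N → (MvPowerSeries (Fin (d + 3)) K →ₐ[K] WS d K)
  /-- the tangent vectors -/
  u : Fin N → Fin 3 → WS d K
  cξ : ∀ l k, c l (ξ k) = PowerSeries.X ^ M * u l k
  u0 : ∀ l, u l 0 = 1
  ct : ∀ l j, c l (t j) = PowerSeries.C (X j)
  /-- the contact exponents and the leading parts of the differences -/
  μ : Fin N → Fin N → ℕ
  w : Fin N → Fin N → Fin 3 → WS d K
  le_μ : ∀ l l', l ≠ l' → M ≤ μ l l'
  diff : ∀ l l', l ≠ l' → ∀ k, c l (ξ k) - c l' (ξ k) = PowerSeries.X ^ μ l l' * w l l' k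
  w0 : ∀ l l', l ≠ l' → w l l' 0 = 0
  wunit : ∀ l l', l ≠ l' → IsUnit (w l l' 1) ∨ IsUnit (w l l' 2)
  he : ∀ i, e i ∈ I
  /-- the branches of the curve `e i = e j = 0` -/
  L : Fin m → Fin m → Finset (Fin N)
  mem_L : ∀ i j l, l ∈ L i j ↔ c l (e i) = 0 ∧ c l (e j) = 0
  /-- the equation of this curve on the sheet `e i = 0` -/
  h : Fin m → Fin m → MvPowerSeries (Fin (d + 3)) K
  rad : ∀ i j, i ≠ j → (Ideal.span {e i, e j}).radical = Ideal.span {e i, h i j}
  ord : ∀ i j, i ≠ j →
    h i j ∈ IsLocalRing.maximalIdeal (MvPowerSeries (Fin (d + 3)) K) ^ (L i j).card ⊔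
      Ideal.span {e i} ∧
    h i j ∉ IsLocalRing.maximalIdeal (MvPowerSeries (Fin (d + 3)) K) ^ ((L i j).card + 1) ⊔
      Ideal.span {e i}
  exists_pair : ∀ l, ∃ i j, i ≠ j ∧ l ∈ L i j

/-- The equation of the plane spanned by the tangent space of `W`, the tangent vector of the
branch `l'` and the leading part of the difference of the branches `l`, `l'`. -/
noncomputable def SFam.hyper {d m : ℕ} {K : Type} [Field K]
    {e : Fin m → MvPowerSeries (Fin (d + 3)) K} {I : Ideal (MvPowerSeries (Fin (d + 3)) K)}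
    (F : SFam e I) (l l' : Fin F.N) (v : Fin (d + 3) → K) : K :=
  Matrix.det ![fun k => lin (F.ξ k) v, fun k => res d K (F.u l' k), fun k => res d K (F.w l l' k)]

end Pool.Agent.Helper85.SB
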