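import Pool.Agent.Helper85.SB.Defs

/-! Block N1: existence of a linear projection transversal to finitely many germs. -/

namespace Pool.Agent.Helper85.SB

open MvPowerSeries Pool.Agent.Helper38.EQ Pool.Agent.Helper38.GP

/-- The polynomial of the least part. -/
private noncomputable def N1_pol {n : ℕ} {K : Type} [Field K] (h : MvPowerSeries (Fin n) K)
    (a : ℕ) : MvPolynomial (Fin n) K :=
  ∑ ν ∈ Finset.univ.finsuppAntidiag a, MvPolynomial.monomial ν (coeff ν h)

private theorem N1_eval {n : ℕ} {K : Type} [Field K] (h : MvPowerSeries (Fin n) K) (a : ℕ)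
    (v : Fin n → K) : MvPolynomial.eval v (N1_pol h a) = homPart h a v := by
  unfold N1_pol homPart
  rw [map_sum]
  refine Finset.sum_congr rfl fun ν _ => ?_
  rw [MvPolynomial.eval_monomial, Finsupp.prod_fintype _ _ fun j => pow_zero _]

private theorem N1_ne {n : ℕ} {K : Type} [Field K] {h : MvPowerSeries (Fin n) K} {a : ℕ}
    (ho : HasOrd h a) : N1_pol h a ≠ 0 := by
  classical
  intro h0
  apply ho.2
  rw [mem_maximalIdeal_pow_iff]
  intro α hα
  rcases Nat.lt_or_ge (∑ i, α i) a with h1 | h1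
  · exact (mem_maximalIdeal_pow_iff a h).1 ho.1 α h1
  · have h2 := congrArg (MvPolynomial.coeff α) h0
    unfold N1_pol at h2
    rw [MvPolynomial.coeff_sum, MvPolynomial.coeff_zero, Finset.sum_eq_single α] at h2
    · rwa [MvPolynomial.coeff_monomial, if_pos rfl] at h2
    · intro ν _ hne
      rw [MvPolynomial.coeff_monomial, if_neg hne]
    · intro h3
      refine absurd ?_ h3
      rw [Finset.mem_finsuppAntidiag]
      exact ⟨le_antisymm (Nat.lt_succ_iff.1 hα) h1, Finset.subset_univ _⟩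

/-- (N1) -/
theorem exists_second {n : ℕ} {K : Type} [Field K] [Infinite K] {ι : Type} [Finite ι]
    (h : ι → MvPowerSeries (Fin (n + 1)) K) (a : ι → ℕ) (ho : ∀ k, HasOrd (h k) (a k)) :
    ∃ p : Proj n K, (∀ j, IsLinear (p.σ.symm (PowerSeries.C (X j)))) ∧
      ∀ k, homPart (h k) (a k) (fun j => p.tr (X j)) ≠ 0 := by
  classical
  have := Fintype.ofFinite ι
  have h1 : (MvPolynomial.X 0 * ∏ k, N1_pol (h k) (a k) : MvPolynomial (Fin (n + 1)) K) ≠ 0 :=
    mul_ne_zero (MvPolynomial.X_ne_zero 0) (Finset.prod_ne_zero_iff.2 fun k _ => N1_ne (ho k))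
  obtain ⟨v, hv⟩ : ∃ v, MvPolynomial.eval v
      (MvPolynomial.X 0 * ∏ k, N1_pol (h k) (a k) : MvPolynomial (Fin (n + 1)) K) ≠ 0 := by
    by_contra hcon
    push Not at hcon
    exact h1 (MvPolynomial.funext fun v => by rw [hcon v, map_zero])
  rw [map_mul, MvPolynomial.eval_X, map_prod] at hv
  have hv0 : v ≠ 0 := by
    rintro rfl
    exact left_ne_zero_of_mul hv rfl
  obtain ⟨p, hp1, hp2⟩ := exists_proj_of_vec v hv0
  refine ⟨p, fun j => hp2 j, fun k => ?_⟩
  have h2 : (fun j => p.tr (X j)) = v := funext hp1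
  rw [h2, ← N1_eval]
  exact Finset.prod_ne_zero_iff.1 (right_ne_zero_of_mul hv) k (Finset.mem_univ k)

end Pool.Agent.Helper85.SB
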