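import Pool.Agent.Helper85.SB.N5
import Pool.Agent.Helper85.SB.N1
import Pool.Agent.Helper80.SP.S1

/-! Lemmas for the block N6. -/

namespace Pool.Agent.Helper85.SB

open MvPowerSeries Pool.Agent.Helper38.EQ Pool.Agent.Helper38.GP
open Pool.Agent.Helper80.SP (cc cc_apply tr_C tr_X symm_mem symm_pow_mem cc_pow_mem linIndep_iff
  linIndep_lift exists_coords hom_sub_mem_coords mem_span_of_eq_zero eqv dvd_of_pull_eq_zero
  mem_span_pair_iff pull_pow_mem homPart_one cs cs_apply cs_eq_zero)

section

variable {n : ℕ} {K : Type} [Field K]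

/-- The direction `v` and the projection. -/
theorem lin_eq_zero_iff {z : Fin n → MvPowerSeries (Fin (n + 1)) K} (hz : LinIndep z)
    (p : Proj n K) (hp : ∀ i, p.σ (z i) = PowerSeries.C (X i)) {v : Fin (n + 1) → K}
    (hv : ∀ i, lin (z i) v = 0) (hv0 : v ≠ 0) (h : MvPowerSeries (Fin (n + 1)) K) :
    lin h v = 0 ↔ p.tr h = 0 := by
  classical
  let t : Fin (n + 1) → K := fun j => p.tr (X j)
  have ht : ∀ i, lin (z i) t = 0 := by
    intro i
    rw [← p.tr_eq_lin]
    unfold Proj.tr
    rw [hp i, PowerSeries.coeff_C, if_neg one_ne_zero, map_zero]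
  have ht0 : t ≠ 0 := by
    intro h
    have h1 : p.tr (p.σ.symm PowerSeries.X) = 1 := tr_X p
    rw [p.tr_eq_lin] at h1
    change lin _ t = 1 at h1
    rw [h] at h1
    unfold lin at h1
    simp at h1
  let M : Matrix (Fin n) (Fin (n + 1)) K := Matrix.of fun i j => coeff (Finsupp.single j 1) (z i)
  have hM : ∀ x : Fin (n + 1) → K, (∀ i, lin (z i) x = 0) → x ∈ LinearMap.ker M.mulVecLin := by
    intro x hx
    rw [LinearMap.mem_ker]
    funext i
    exact hx i
  have hrank : Module.finrank K (LinearMap.ker M.mulVecLin) = 1 := by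
    have h1 : M.rank = n := by
      have h2 : LinearIndependent K M.row := hz.2
      rw [h2.rank_matrix, Fintype.card_fin]
    have h2 := LinearMap.finrank_range_add_finrank_ker M.mulVecLin
    have h3 : Module.finrank K (LinearMap.range M.mulVecLin) = n := h1
    rw [h3, Module.finrank_fintype_fun_eq_card, Fintype.card_fin] at h2
    omega
  have hvne : (⟨v, hM v hv⟩ : LinearMap.ker M.mulVecLin) ≠ 0 := by
    intro h
    exact hv0 (congrArg (fun x : LinearMap.ker M.mulVecLin => (x : Fin (n + 1) → K)) h)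
  obtain ⟨c, hc⟩ := (finrank_eq_one_iff_of_nonzero' _ hvne).1 hrank ⟨t, hM t ht⟩
  have hc' : c • v = t :=
    congrArg (fun x : LinearMap.ker M.mulVecLin => (x : Fin (n + 1) → K)) hc
  have hc0 : c ≠ 0 := by
    rintro rfl
    apply ht0
    rw [← hc', zero_smul]
  have h1 : p.tr h = c * lin h v := by
    rw [p.tr_eq_lin]
    change lin h t = _
    rw [← hc']
    unfold lin
    rw [Finset.mul_sum]
    refine Finset.sum_congr rfl fun j _ => ?_
    rw [Pi.smul_apply, smul_eq_mul]
    ring
  rw [h1, mul_eq_zero]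
  exact ⟨fun h2 => Or.inr h2, fun h2 => h2.resolve_left hc0⟩

/-- The inclusion of the base. -/
noncomputable def up (p : Proj n K) : R1 n K →ₐ[K] MvPowerSeries (Fin (n + 1)) K :=
  { (p.σ.symm : PowerSeries (R1 n K) →+* MvPowerSeries (Fin (n + 1)) K).comp
      (PowerSeries.C (R := R1 n K)) with
    commutes' := by
      intro a
      have h4 : algebraMap K (PowerSeries (R1 n K)) a = PowerSeries.C (algebraMap K (R1 n K) a) := by
        rw [IsScalarTower.algebraMap_apply K (R1 n K) (PowerSeries (R1 n K))]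
        rfl
      change p.σ.symm (PowerSeries.C (algebraMap K (R1 n K) a)) = _
      rw [← h4, AlgEquiv.commutes] }

theorem up_apply (p : Proj n K) (b : R1 n K) : up p b = p.σ.symm (PowerSeries.C b) := rfl

theorem up_mem_iff (p : Proj n K) {I : Ideal (MvPowerSeries (Fin (n + 1)) K)} {b : R1 n K} :
    b ∈ p.img I ↔ up p b ∈ I := by
  have h1 : b ∈ p.img I ↔ PowerSeries.C b ∈ Ideal.map p.σ I := Iff.rfl
  have h2 : PowerSeries.C b = p.σ (up p b) := by
    rw [up_apply, AlgEquiv.apply_symm_apply]
  rw [h1, h2, mem_map_algEquiv]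

variable {p : Proj n K} {e : MvPowerSeries (Fin (n + 1)) K}

theorem pull_up (s : Sec p e) (b : R1 n K) : s.pull (up p b) = b := by
  rw [Sec.pull_apply, ex_eq, up_apply, AlgEquiv.apply_symm_apply, s.ε_C]

theorem dvd_sub_up (s : Sec p e) (h : MvPowerSeries (Fin (n + 1)) K) :
    e ∣ h - up p (s.pull h) := by
  refine dvd_of_pull_eq_zero s ?_
  rw [map_sub, pull_up, sub_self]

end

/-- The residue of the value of a homomorphism. -/
theorem res_hom_eq {n d : ℕ} {K : Type} [Field K] (Γ : MvPowerSeries (Fin n) K →ₐ[K] WS d K)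
    (h : MvPowerSeries (Fin n) K) : res d K (Γ h) = constantCoeff h := by
  let χ : WS d K →ₐ[K] K :=
    { res d K with
      commutes' := by
        intro a
        have h4 : algebraMap K (WS d K) a = PowerSeries.C (C a) := by
          rw [IsScalarTower.algebraMap_apply K (MvPowerSeries (Fin d) K) (WS d K)]
          rfl
        rw [h4]
        simp [res] }
  have h1 : h - algebraMap K (MvPowerSeries (Fin n) K) (constantCoeff h) ∈
      IsLocalRing.maximalIdeal (MvPowerSeries (Fin n) K) := by
    rw [mem_maximalIdeal_iff_constantCoeff, map_sub, MvPowerSeries.algebraMap_apply]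
    simp
  have h2 := hom_mem χ Γ h1
  have h3 : χ (Γ (h - algebraMap K (MvPowerSeries (Fin n) K) (constantCoeff h))) = 0 := by
    by_contra hne
    rw [IsLocalRing.mem_maximalIdeal, mem_nonunits_iff] at h2
    apply h2
    rw [PowerSeries.isUnit_iff_constantCoeff, MvPowerSeries.isUnit_iff_constantCoeff]
    exact isUnit_iff_ne_zero.2 hne
  rw [map_sub, map_sub, AlgHom.commutes, AlgHom.commutes, sub_eq_zero] at h3
  exact h3

/-- A product of divisors of powers divides a power. -/
theorem prod_dvd_pow {R ι : Type} [CommRing R] (s : Finset ι) (a : ι → R) (P : R)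
    (h : ∀ i ∈ s, ∃ N, a i ∣ P ^ N) : ∃ N, (∏ i ∈ s, a i) ∣ P ^ N := by
  classical
  induction s using Finset.induction_on with
  | empty => exact ⟨0, by simp⟩
  | insert x s hx ih =>
    obtain ⟨N, hN⟩ := ih fun i hi => h i (Finset.mem_insert_of_mem hi)
    obtain ⟨M, hM⟩ := h x (Finset.mem_insert_self x s)
    refine ⟨M + N, ?_⟩
    rw [Finset.prod_insert hx, pow_add]
    exact mul_dvd_mul hM hN

theorem radical_eq_of_dvd {R : Type} [CommRing R] {a b : R} (h1 : ∃ N, a ∣ b ^ N)
    (h2 : ∃ N, b ∣ a ^ N) : (Ideal.span {a}).radical = (Ideal.span {b}).radical := by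
  have key : ∀ {a b : R}, (∃ N, b ∣ a ^ N) → (Ideal.span {a}).radical ≤ (Ideal.span {b}).radical := by
    intro a b h
    obtain ⟨N, hN⟩ := h
    rw [Ideal.radical_le_radical_iff, Ideal.span_singleton_le_iff_mem, Ideal.mem_radical_iff]
    exact ⟨N, Ideal.mem_span_singleton.2 hN⟩
  exact le_antisymm (key h2) (key h1)

/-- A smooth germ is a coordinate. -/
theorem exists_coord_zero {d : ℕ} {K : Type} [Field K] {f : MvPowerSeries (Fin (d + 1)) K}
    (hf : HasOrd f 1) :
    ∃ τ : MvPowerSeries (Fin (d + 1)) K ≃ₐ[K] MvPowerSeries (Fin (d + 1)) K, τ (X 0) = f := by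
  classical
  have h1 : f ∈ IsLocalRing.maximalIdeal (MvPowerSeries (Fin (d + 1)) K) := by
    have := hf.1
    rwa [pow_one] at this
  have h3 : constantCoeff f = 0 := (mem_maximalIdeal_iff_constantCoeff f).1 h1
  obtain ⟨j₀, hj₀⟩ : ∃ j, coeff (Finsupp.single j 1) f ≠ 0 := by
    by_contra hcon
    push Not at hcon
    exact hf.2 ((Pool.Agent.Helper38.ED.LIBasic1_mem_sq_iff f).2 ⟨h3, hcon⟩)
  have hh : LinIndep (Fin.cons f fun i => X (j₀.succAbove i) :
      Fin (d + 1) → MvPowerSeries (Fin (d + 1)) K) := by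
    rw [linIndep_iff]
    refine ⟨fun i => ?_, fun c hc => ?_⟩
    · refine Fin.cases h1 (fun i => ?_) i
      exact (mem_maximalIdeal_iff_constantCoeff _).2 (constantCoeff_X _)
    · rw [Fin.sum_univ_succ] at hc
      simp only [Fin.cons_zero, Fin.cons_succ] at hc
      rw [Pool.Agent.Helper38.ED.LIBasic1_mem_sq_iff] at hc
      have hX : ∀ j, coeff (Finsupp.single j 1)
          (∑ i : Fin d, C (c i.succ) * (X (j₀.succAbove i) : MvPowerSeries (Fin (d + 1)) K)) =
          ∑ i : Fin d, c i.succ * if j = j₀.succAbove i then 1 else 0 := by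
        intro j
        rw [map_sum]
        refine Finset.sum_congr rfl fun i _ => ?_
        rw [coeff_C_mul, coeff_X]
        congr 1
        by_cases h : j = j₀.succAbove i
        · rw [h, if_pos rfl, if_pos rfl]
        · rw [if_neg h, if_neg]
          intro h5
          exact h (Finsupp.single_left_injective one_ne_zero h5)
      have h4 := hc.2 j₀
      rw [map_add, coeff_C_mul, hX, Finset.sum_eq_zero (fun i _ => by
        rw [if_neg (Fin.succAbove_ne j₀ i).symm, mul_zero]), add_zero] at h4
      have hc0 : c 0 = 0 := (mul_eq_zero.1 h4).resolve_right hj₀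
      funext i
      refine Fin.cases hc0 (fun i => ?_) i
      have h5 := hc.2 (j₀.succAbove i)
      rw [map_add, coeff_C_mul, hX, hc0, zero_mul, zero_add, Finset.sum_eq_single i] at h5
      · rwa [if_pos rfl, mul_one] at h5
      · intro k _ hk
        rw [if_neg, mul_zero]
        intro h6
        exact hk (Fin.succAbove_right_injective h6).symm
      · intro h6
        exact absurd (Finset.mem_univ _) h6
  obtain ⟨τ, hτ⟩ := exists_coords hh (Equiv.refl _)
  exact ⟨τ, hτ 0⟩

end Pool.Agent.Helper85.SB
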