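import Pool.Agent.Helper85.SB.J
import Pool.Agent.Helper80.SP.S3

/-! Block S: the double curves. -/

namespace Pool.Agent.Helper85.SB

open MvPowerSeries Pool.Agent.Helper38.EQ Pool.Agent.Helper38.GP

/-- (S) The branches of the double curves of a union of smooth sheets which is equisingular by
transversal projections. Proof: `p` from the first projection, sections `s i : Sec p (e i)`,
`g` is the radical of the discriminant `∏ (r_i - r_j)` (`factor_unique`, `discr_prod`),
`Fam g I'` by (J). WARNING: two double curves of different heights may have the same image, so the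
index set of the `SFam` is the finite set of the DISTINCT homomorphisms `G l ∘ pull_i` with
`G l (r_i - r_j) = 0` for some `j ≠ i` (at least one for every `l`, as `G l g = 0`).
`ξ = (x, y, X - τ)` (lifted by `σ⁻¹ ∘ C`), `I = (ξ)` by `exists_graph`. All `r_i - r_j` are in
`I' = (x, y)`, and `f ∈ I` gives all `e i ∈ I`. `r_i - r_j` divides a power of `g`, so `dich` gives
the differences: `c (ξ 2) - c' (ξ 2) = G l (r_i - r_i') + (G l - G l') r_i'` (for `l = l'` it is
`G l (r_i - r_i') ≠ 0`). `h i j` is the lift of the radical of `r_i - r_j` (`rad`); `L i j` is in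
bijection with the set of the `l` with `G l (r_i - r_j) = 0`. -/
theorem exists_sfam {d m : ℕ} {K : Type} [Field K] [IsAlgClosed K] [CharZero K]
    {e : Fin m → MvPowerSeries (Fin (d + 3)) K}
    (he : ∀ i, e i ∈ IsLocalRing.maximalIdeal (MvPowerSeries (Fin (d + 3)) K) ∧
      e i ∉ IsLocalRing.maximalIdeal (MvPowerSeries (Fin (d + 3)) K) ^ 2)
    {I : Ideal (MvPowerSeries (Fin (d + 3)) K)}
    (h : Equi (Trans K) 2 (d + 3) (∏ i, e i) I) : Nonempty (SFam e I) := by
  classical
  have hchar : CharZero K := inferInstance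
  have hinf : Infinite K := inferInstance
  have hItop : I ≠ ⊤ := h.ne_top
  obtain ⟨hf, z, hT, hpar, hperm, g, I', ⟨σ, F, hσ, ⟨U, hU⟩, hred, hI'⟩, hE⟩ := h
  let p : Proj (d + 2) K := ⟨σ.equiv⟩
  have hz : LinIndep z := hpar.1
  have hp : ∀ i, p.σ (z i) = PowerSeries.C (X i) := hσ
  have ht : ∀ i, p.tr (e i) ≠ 0 := Pool.Agent.Helper80.SP.tr_ne_of_transversal hz p hp he hT
  have hs : ∀ i, Nonempty (Sec p (e i)) := fun i => exists_sec p _ (he i).1 (ht i)
  let s : ∀ i, Sec p (e i) := fun i => (hs i).some
  have hF : F = ∏ i, (Polynomial.X - Polynomial.C (s i).r) := by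
    refine factor_unique s (Associated.refl (∏ i, e i)) (U := U) ?_
    rw [ex_eq]
    exact hU
  obtain ⟨τ, hτ, hτI⟩ := exists_graph p hz hp hItop hperm
  have hI'' : I' = p.img I := hI'
  subst hI''
  obtain ⟨Fm⟩ := exists_fam hE
  have hdisc := Pool.Agent.Helper38.ED.discr_prod fun i => (s i).r
  rw [← hF] at hdisc
  have hgF : g ∣ F.discr := by
    have h1 : F.discr ∈ (Ideal.span {F.discr}).radical :=
      Ideal.le_radical (Ideal.mem_span_singleton_self _)
    rw [← show Ideal.span {g} = (Ideal.span {F.discr}).radical from hred] at h1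
    exact Ideal.mem_span_singleton.1 h1
  obtain ⟨k₀, hk₀⟩ : ∃ k, F.discr ∣ g ^ k := by
    have h1 : g ∈ (Ideal.span {F.discr}).radical := by
      rw [← show Ideal.span {g} = (Ideal.span {F.discr}).radical from hred]
      exact Ideal.mem_span_singleton_self _
    obtain ⟨k, hk⟩ := h1
    exact ⟨k, Ideal.mem_span_singleton.1 hk⟩
  let D : Pool.Agent.Helper80.SP.Data e I :=
    { p := p
      s := s
      g := g
      k₀ := k₀
      dvd := fun i j hij => by
        refine Dvd.dvd.trans ?_ (hdisc.symm.dvd.trans hk₀)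
        refine Dvd.dvd.trans ?_ (Finset.dvd_prod_of_mem _ (Finset.mem_univ i))
        exact Finset.dvd_prod_of_mem (fun j => (s i).r - (s j).r)
          (Finset.mem_filter.2 ⟨Finset.mem_univ _, hij.symm⟩)
      ex := fun δ hδ => by
        have h1 : δ (∏ i, ∏ j ∈ Finset.univ.filter (fun j => j ≠ i), ((s i).r - (s j).r)) = 0 := by
          have h2 := map_dvd δ (hgF.trans hdisc.dvd)
          rw [hδ, zero_dvd_iff] at h2
          exact h2
        rw [map_prod, Finset.prod_eq_zero_iff] at h1
        obtain ⟨i, -, h2⟩ := h1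
        rw [map_prod, Finset.prod_eq_zero_iff] at h2
        obtain ⟨j, hj, h3⟩ := h2
        rw [map_sub] at h3
        exact ⟨i, j, (Finset.mem_filter.1 hj).2, h3⟩
      mem := hf
      τ := τ
      τ_mem := hτ
      τI := hτI
      F := Fm }
  exact D.exists_sfam

end Pool.Agent.Helper85.SB
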