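import Pool.Agent.Helper85.SB.D2

/-! Block D: the arcs in the new coordinates. -/

namespace Pool.Agent.Helper85.SB

open MvPowerSeries Pool.Agent.Helper38.EQ Pool.Agent.Helper38.GP

/-- (D) Reparametrisation: `x`, `t'` are the new coordinates of the base, `y` is the new fibre
coordinate, `v` spans the kernel of the projection. -/
theorem exists_new_arcs {d m : ℕ} {K : Type} [Field K] [IsAlgClosed K] [CharZero K]
    {e : Fin m → MvPowerSeries (Fin (d + 3)) K} {I : Ideal (MvPowerSeries (Fin (d + 3)) K)}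
    (F : SFam e I) {x y : MvPowerSeries (Fin (d + 3)) K} {t' : Fin d → MvPowerSeries (Fin (d + 3)) K}
    (hx : x ∈ I) (hy : y ∈ I)
    (hgen : IsLocalRing.maximalIdeal (MvPowerSeries (Fin (d + 3)) K) = I ⊔ Ideal.span (Set.range t'))
    (hlin : LinIndep ![x, y])
    (hxu : ∀ l, ∃ a, IsUnit a ∧ F.c l x = PowerSeries.X ^ F.M * a)
    {v : Fin (d + 3) → K} (hxv : lin x v = 0) (hyv : lin y v = 0)
    (hyp : ∀ l l', l ≠ l' → F.hyper l l' v ≠ 0) :
    ∃ c' : Fin F.N → (MvPowerSeries (Fin (d + 3)) K →ₐ[K] WS d K),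
      (∀ l, c' l x = PowerSeries.X ^ F.M) ∧ (∀ l j, c' l (t' j) = PowerSeries.C (X j)) ∧
      (∀ l, ∃ ψ : WS d K ≃ₐ[K] WS d K, ∀ h, F.c l h = ψ (c' l h)) ∧
      ∀ l l', l ≠ l' → ∃ k, 1 ≤ k ∧ Associated (c' l y - c' l' y) (PowerSeries.X ^ k) := by
  classical
  have hM0 : F.M ≠ 0 := by have := F.hM; omega
  -- the coordinates
  have hξ0 : ∀ k, constantCoeff (F.ξ k) = 0 := fun k => F.li.1 (Sum.inl k)
  have ht0 : ∀ j, constantCoeff (F.t j) = 0 := fun j => F.li.1 (Sum.inr j)
  let eq3 : Fin 3 ⊕ Fin d ≃ Fin (d + 3) := finSumFinEquiv.trans (finCongr (Nat.add_comm 3 d))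
  -- the arcs are congruent modulo `s ^ μ`
  have hcong : ∀ l l', l ≠ l' → ∀ h, PowerSeries.X ^ F.μ l l' ∣ F.c l h - F.c l' h := by
    intro l l' hll h
    have h1 := Pool.Agent.Helper80.SP.hom_sub_mem_coords F.li eq3 (F.c l) (F.c l')
      (Ideal.span {(PowerSeries.X ^ F.μ l l' : WS d K)}) (fun i => by
        rw [Ideal.mem_span_singleton]
        rcases i with k | j
        · change PowerSeries.X ^ F.μ l l' ∣ F.c l (F.ξ k) - F.c l' (F.ξ k)
          rw [F.diff l l' hll]
          exact dvd_mul_right _ _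
        · change PowerSeries.X ^ F.μ l l' ∣ F.c l (F.t j) - F.c l' (F.t j)
          rw [F.ct, F.ct, sub_self]
          exact dvd_zero _) h
    exact Ideal.mem_span_singleton.1 h1
  -- elements of `I`
  have hI : ∀ h ∈ I, ∃ a : Fin 3 → MvPowerSeries (Fin (d + 3)) K, h = ∑ k, a k * F.ξ k := by
    intro h hh
    rw [F.hI] at hh
    obtain ⟨a, ha⟩ := (Ideal.mem_span_range_iff_exists_fun).1 hh
    exact ⟨a, ha.symm⟩
  have hIX : ∀ l, ∀ h ∈ I, (PowerSeries.X ^ F.M : WS d K) ∣ F.c l h := by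
    intro l h hh
    obtain ⟨a, rfl⟩ := hI h hh
    rw [map_sum]
    refine Finset.dvd_sum fun k _ => ?_
    rw [map_mul, F.cξ]
    exact ⟨F.c l (a k) * F.u l k, by ring⟩
  obtain ⟨px, hpx⟩ := hI x hx
  obtain ⟨py, hpy⟩ := hI y hy
  choose a hau ha using hxu
  -- the roots
  have hroot : ∀ b : K, ∃ r : K, r ^ F.M = b := fun b => IsAlgClosed.exists_pow_nat_eq b F.hM
  choose ρ hρ using hroot
  have hρ0 : ∀ b : K, b ≠ 0 → ρ b ≠ 0 := by
    intro b hb h0
    apply hb
    rw [← hρ b, h0, zero_pow hM0]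
  have hra : ∀ l, res d K (a l) ≠ 0 := fun l => (isUnit_iff_res _).1 (hau l)
  choose v' hv' hv'r using fun l =>
    exists_root_res hM0 (a l) (ρ (res d K (a l))) (hρ0 _ (hra l)) (hρ _)
  have hv'u : ∀ l, IsUnit (v' l) := fun l => by
    rw [isUnit_iff_res, hv'r]
    exact hρ0 _ (hra l)
  -- the automorphisms
  have ht' : ∀ j, constantCoeff (t' j) = 0 := by
    intro j
    rw [← mem_maximalIdeal_iff_constantCoeff, hgen]
    exact Ideal.mem_sup_right (Ideal.subset_span ⟨j, rfl⟩)
  have haut : ∀ l, ∃ ψ : WS d K ≃ₐ[K] WS d K, ψ PowerSeries.X = PowerSeries.X * v' l ∧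
      ∀ j, ψ (PowerSeries.C (X j)) = F.c l (t' j) := by
    intro l
    apply exists_aut
    · rw [map_mul, res_X, zero_mul]
    · intro j
      rw [res_hom, ht']
    · obtain ⟨J, hJ⟩ : ∃ J : Ideal (WS d K), J = Ideal.span {(PowerSeries.X * v' l : WS d K)} ⊔
          Ideal.span (Set.range fun j => F.c l (t' j)) := ⟨_, rfl⟩
      rw [← hJ]
      have hX : (PowerSeries.X : WS d K) ∈ J := by
        rw [hJ]
        apply Ideal.mem_sup_left
        rw [Ideal.mem_span_singleton]
        obtain ⟨V, hV⟩ := hv'u l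
        exact ⟨((V⁻¹ : (WS d K)ˣ) : WS d K), by rw [← hV, mul_assoc, Units.mul_inv, mul_one]⟩
      apply mW_le hX
      intro j
      have h1 : F.t j ∈ I ⊔ Ideal.span (Set.range t') := by
        rw [← hgen, mem_maximalIdeal_iff_constantCoeff]
        exact ht0 j
      have h2 : I ⊔ Ideal.span (Set.range t') ≤
          Ideal.comap (F.c l : MvPowerSeries (Fin (d + 3)) K →+* WS d K) J := by
        rw [sup_le_iff, Ideal.span_le]
        constructor
        · intro h hh
          change F.c l h ∈ J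
          obtain ⟨b, hb⟩ := hIX l h hh
          rw [hb]
          obtain ⟨M', hM'⟩ := Nat.exists_eq_succ_of_ne_zero hM0
          rw [hM', pow_succ, mul_assoc, mul_comm, mul_assoc]
          exact Ideal.mul_mem_right _ _ hX
        · rintro _ ⟨i, rfl⟩
          change F.c l (t' i) ∈ J
          rw [hJ]
          exact Ideal.mem_sup_right (Ideal.subset_span ⟨i, rfl⟩)
      have h3 : F.c l (F.t j) ∈ J := h2 h1
      rwa [F.ct] at h3
  choose ψ hψ hψC using haut
  refine ⟨fun l => ((ψ l).symm : WS d K →ₐ[K] WS d K).comp (F.c l), fun l => ?_, fun l j => ?_,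
    fun l => ⟨ψ l, fun h => ?_⟩, fun l l' hll => ?_⟩
  · change (ψ l).symm (F.c l x) = _
    rw [ha, ← hv', ← mul_pow, ← hψ, map_pow, AlgEquiv.symm_apply_apply]
  · change (ψ l).symm (F.c l (t' j)) = _
    rw [← hψC, AlgEquiv.symm_apply_apply]
  · change F.c l h = ψ l ((ψ l).symm (F.c l h))
    rw [AlgEquiv.apply_symm_apply]
  · have hMμ := F.le_μ l l' hll
    refine ⟨F.μ l l', F.hM.trans hMμ, ?_⟩
    change Associated ((ψ l).symm (F.c l y) - (ψ l').symm (F.c l' y)) _
    have hdvd : ∀ k, (PowerSeries.X ^ F.M : WS d K) ∣ F.c l' (F.ξ k) := fun k => by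
      rw [F.cξ]; exact dvd_mul_right _ _
    obtain ⟨Ax, hAx, hAxr⟩ := diff_sum (F.c l) (F.c l') px F.ξ (F.w l l') F.hM
      (hcong l l' hll) hdvd (F.diff l l' hll)
    obtain ⟨Ay, hAy, hAyr⟩ := diff_sum (F.c l) (F.c l') py F.ξ (F.w l l') F.hM
      (hcong l l' hll) hdvd (F.diff l l' hll)
    obtain ⟨Bx, hBx, hBxr⟩ := val_sum (F.c l') px F.ξ (F.u l') (F.cξ l')
    obtain ⟨By, hBy, hByr⟩ := val_sum (F.c l') py F.ξ (F.u l') (F.cξ l')
    rw [← hpx] at hAx hBx
    rw [← hpy] at hAy hBy
    have hXM : (PowerSeries.X ^ F.M : WS d K) ≠ 0 := pow_ne_zero _ PowerSeries.X_ne_zero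
    have hBa : Bx = a l' := by
      rw [ha] at hBx
      exact (mul_left_cancel₀ hXM hBx).symm
    have hBu : IsUnit Bx := by rw [hBa]; exact hau l'
    have hres : res d K Bx * res d K Ay - res d K By * res d K Ax ≠ 0 := by
      rw [hBxr, hAyr, hByr, hAxr]
      apply det_lemma (fun k => lin (F.ξ k) v) _ _ (hyp l l' hll)
      · rw [hpx, lin_sum _ _ hξ0] at hxv
        exact hxv
      · rw [hpy, lin_sum _ _ hξ0] at hyv
        exact hyv
      · intro α β hαβ
        have h1 := Fintype.linearIndependent_iff.1 hlin.2 ![α, β] (by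
          funext j
          rw [Finset.sum_apply, Fin.sum_univ_two]
          simp only [Pi.smul_apply, smul_eq_mul, Matrix.cons_val_zero, Matrix.cons_val_one,
            Pi.zero_apply]
          rw [hpx, hpy, coeff_sum _ _ hξ0, coeff_sum _ _ hξ0, Finset.mul_sum, Finset.mul_sum,
            ← Finset.sum_add_distrib]
          apply Finset.sum_eq_zero
          intro k _
          have h2 := hαβ k
          linear_combination (coeff (Finsupp.single j 1) (F.ξ k)) * h2)
        exact ⟨h1 0, h1 1⟩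
    -- the quotient
    obtain ⟨V, hV⟩ := hBu
    have hq : F.c l' y = F.c l' x * (((V⁻¹ : (WS d K)ˣ) : WS d K) * By) := by
      rw [hBx, hBy, ← hV]
      have h1 : (V : WS d K) * ((V⁻¹ : (WS d K)ˣ) : WS d K) = 1 := Units.mul_inv V
      linear_combination -(PowerSeries.X ^ F.M * By) * h1
    have hVr : res d K Bx * res d K ((V⁻¹ : (WS d K)ˣ) : WS d K) = 1 := by
      rw [← hV, ← map_mul, Units.mul_inv, map_one]
    refine diff_assoc F.hM hMμ (ha l) (ha l') (hv' l) (hv' l') (hψ l) (hψ l') (hψC l) (hψC l') ?_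
      (hv'u l) (hcong l l' hll) hq
      (U := Ay - Ax * (((V⁻¹ : (WS d K)ˣ) : WS d K) * By)) ?_ ?_
    · rcases Nat.eq_or_lt_of_le hMμ with h1 | h1
      · rw [← h1, Nat.sub_self, pow_zero]
        exact one_dvd _
      · have h2 : (PowerSeries.X ^ (F.μ l l' - F.M) : WS d K) ∣ a l - a l' := by
          have h3 := hcong l l' hll x
          rw [ha, ha, ← mul_sub] at h3
          have h4 : (PowerSeries.X ^ F.μ l l' : WS d K) =
              PowerSeries.X ^ F.M * PowerSeries.X ^ (F.μ l l' - F.M) := by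
            rw [← pow_add]
            congr 1
            omega
          rw [h4] at h3
          exact (mul_dvd_mul_iff_left hXM).1 h3
        have h3 : res d K (a l) = res d K (a l') := by
          obtain ⟨b, hb⟩ := h2
          have h4 := congrArg (res d K) hb
          rw [map_sub, map_mul, map_pow, res_X, zero_pow (by omega), zero_mul, sub_eq_zero] at h4
          exact h4
        have h4 := root_sub hM0 (hv' l) (hv' l') (by rw [hv'r, hv'r, h3]) (by
          rw [hv'r]; exact hρ0 _ (hra l))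
        exact h2.trans h4.2
    · rw [isUnit_iff_res]
      intro h0
      apply hres
      rw [map_sub, map_mul, map_mul] at h0
      linear_combination res d K Bx * h0 + res d K Ax * res d K By * hVr
    · rw [hAy, hAx]
      ring

end Pool.Agent.Helper85.SB
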