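import Pool.Agent.Helper85.SB.N6C

/-! Block N6: the new projections are equisingular. -/

namespace Pool.Agent.Helper85.SB

open MvPowerSeries Pool.Agent.Helper38.EQ Pool.Agent.Helper38.GP
open Pool.Agent.Helper38.ED (discr_prod)
open Pool.Agent.Helper80.SP (cc cc_apply cc_symm_C tr_C tr_X symm_mem symm_pow_mem cc_pow_mem
  linIndep_iff linIndep_lift exists_coords hom_sub_mem hom_sub_mem_coords mem_span_of_eq_zero eqv
  dvd_of_pull_eq_zero mem_span_pair_iff pull_pow_mem homPart_one cs cs_apply cs_eq_zero)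

private theorem N6_ramA {d : ℕ} {K : Type} [Field K] {M : ℕ} (hM : M ≠ 0) :
    ∃ ramA : WS d K →ₐ[K] WS d K, ∀ w, ramA w = ram hM w :=
  ⟨(PowerSeries.expand M hM : WS d K →ₐ[MvPowerSeries (Fin d) K] WS d K).restrictScalars K,
      fun _ => rfl⟩

private theorem N6_G2 {d : ℕ} {K : Type} [Field K] (G : R1 (d + 2) K →ₐ[K] WS d K)
    (p₂ : Proj (d + 1) K) (τ : MvPowerSeries (Fin (d + 1)) K ≃ₐ[K] MvPowerSeries (Fin (d + 1)) K) :
    ∃ G₂ : MvPowerSeries (Fin (d + 1)) K →ₐ[K] WS d K, ∀ b, G₂ b = G (up p₂ (τ b)) :=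
  ⟨(G.comp (up p₂)).comp τ.toAlgHom, fun _ => rfl⟩

private theorem N6_R2 {d : ℕ} {K : Type} [Field K] {M : ℕ} (hM : M ≠ 0)
    (β : R1 (d + 1) K ≃ₐ[K] WS d K)
    (τ : MvPowerSeries (Fin (d + 1)) K ≃ₐ[K] MvPowerSeries (Fin (d + 1)) K) :
    ∃ R₂ : MvPowerSeries (Fin (d + 1)) K →ₐ[K] WS d K, ∀ b, R₂ b = ram hM (β (τ b)) := by
  obtain ⟨ramA, hramA⟩ := N6_ramA (d := d) (K := K) hM
  refine ⟨(ramA.comp β.toAlgHom).comp τ.toAlgHom, fun b => ?_⟩
  rw [AlgHom.comp_apply, AlgHom.comp_apply, hramA]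
  rfl

private theorem N6_beta {d : ℕ} {K : Type} [Field K]
    (τ : MvPowerSeries (Fin (d + 1)) K ≃ₐ[K] MvPowerSeries (Fin (d + 1)) K) :
    ∃ β : R1 (d + 1) K ≃ₐ[K] WS d K, ∀ b, β (τ b) = finSuccEquiv K d b :=
  ⟨τ.symm.trans (finSuccEquiv K d), fun b => by
    rw [AlgEquiv.trans_apply, AlgEquiv.symm_apply_apply]⟩

/-- The new coordinates generate. -/
private theorem N6_gen {d m : ℕ} {K : Type} [Field K]
    {e : Fin m → MvPowerSeries (Fin (d + 3)) K} {I : Ideal (MvPowerSeries (Fin (d + 3)) K)}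
    (F : SFam e I) {p : Proj (d + 2) K} (s : ∀ i, Sec p (e i)) (p₂ : Proj (d + 1) K)
    {ρ : R1 (d + 1) K} (hρ : ρ ∈ IsLocalRing.maximalIdeal (R1 (d + 1) K))
    (hy : up p (p₂.σ.symm (PowerSeries.X - PowerSeries.C ρ)) ∈ I)
    (τ : MvPowerSeries (Fin (d + 1)) K ≃ₐ[K] MvPowerSeries (Fin (d + 1)) K)
    (hx : up p (up p₂ (τ (X 0))) ∈ I) :
    IsLocalRing.maximalIdeal (MvPowerSeries (Fin (d + 3)) K) =
      I ⊔ Ideal.span (Set.range fun j : Fin d => up p (up p₂ (τ (X j.succ)))) := by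
  classical
  obtain ⟨i0, j0, -, -⟩ := F.exists_pair F.l0
  have hτm : ∀ b ∈ IsLocalRing.maximalIdeal (MvPowerSeries (Fin (d + 1)) K),
      τ b ∈ IsLocalRing.maximalIdeal (MvPowerSeries (Fin (d + 1)) K) := by
    intro b hb
    rw [IsLocalRing.mem_maximalIdeal, mem_nonunits_iff] at hb ⊢
    intro h1
    apply hb
    have h2 := h1.map τ.symm
    rwa [AlgEquiv.symm_apply_apply] at h2
  apply le_antisymm
  · intro f hf
    obtain ⟨w, hw⟩ := dvd_sub_up (s i0) f
    have h1 : f = up p ((s i0).pull f) + e i0 * w := by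
      rw [← hw]
      ring
    rw [h1]
    refine Ideal.add_mem _ ?_ (Ideal.mem_sup_left (Ideal.mul_mem_right _ _ (F.he i0)))
    have h2 : (s i0).pull f ∈ IsLocalRing.maximalIdeal (R1 (d + 2) K) := (s i0).pull_mem hf
    set b := (s i0).pull f with hb
    obtain ⟨s₂, hs₂⟩ := Pool.Agent.Helper80.SP.exists_sec_of_root p₂ hρ
    obtain ⟨w₂, hw₂⟩ := dvd_sub_up s₂ b
    have h3 : b = up p₂ (s₂.pull b) + p₂.σ.symm (PowerSeries.X - PowerSeries.C ρ) * w₂ := by
      rw [← hw₂]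
      ring
    rw [h3, map_add, map_mul]
    refine Ideal.add_mem _ ?_ (Ideal.mem_sup_left (Ideal.mul_mem_right _ _ hy))
    have h4 : s₂.pull b ∈ IsLocalRing.maximalIdeal (R1 (d + 1) K) := s₂.pull_mem h2
    set c := s₂.pull b with hc
    obtain ⟨Λ, hΛ⟩ : ∃ Λ : MvPowerSeries (Fin (d + 1)) K →ₐ[K] MvPowerSeries (Fin (d + 3)) K,
        ∀ b, Λ b = up p (up p₂ (τ b)) :=
      ⟨((up p).comp (up p₂)).comp (τ : MvPowerSeries (Fin (d + 1)) K →ₐ[K] _), fun b => rfl⟩
    have h5 : Ideal.span (Set.range fun i => (X i : MvPowerSeries (Fin (d + 1)) K)) ≤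
        Ideal.comap Λ (I ⊔ Ideal.span (Set.range fun j : Fin d =>
          up p (up p₂ (τ (X j.succ))))) := by
      rw [Ideal.span_le]
      rintro _ ⟨i, rfl⟩
      rw [SetLike.mem_coe, Ideal.mem_comap, hΛ]
      refine Fin.cases ?_ (fun j => ?_) i
      · exact Ideal.mem_sup_left hx
      · exact Ideal.mem_sup_right (Ideal.subset_span ⟨j, rfl⟩)
    have h6 : τ.symm c ∈ IsLocalRing.maximalIdeal (MvPowerSeries (Fin (d + 1)) K) := by
      rw [IsLocalRing.mem_maximalIdeal, mem_nonunits_iff] at h4 ⊢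
      intro h7
      apply h4
      have h8 := h7.map τ
      rwa [AlgEquiv.apply_symm_apply] at h8
    rw [maximalIdeal_eq_span_X] at h6
    have h7 := h5 h6
    rwa [Ideal.mem_comap, hΛ, AlgEquiv.apply_symm_apply] at h7
  · refine sup_le F.le_max ?_
    rw [Ideal.span_le]
    rintro _ ⟨j, rfl⟩
    exact symm_mem p (symm_mem p₂ (hτm _
      ((mem_maximalIdeal_iff_constantCoeff _).2 (constantCoeff_X _))))

/-- (N6) Assembly. -/
theorem equiProj_new {d m : ℕ} {K : Type} [Field K] [IsAlgClosed K] [CharZero K] {𝒞 : ProjClass K}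
    (h𝒞 : HasLin 𝒞) {e : Fin m → MvPowerSeries (Fin (d + 3)) K}
    {I : Ideal (MvPowerSeries (Fin (d + 3)) K)} (F : SFam e I)
    {z : Fin (d + 2) → MvPowerSeries (Fin (d + 3)) K} (hz : LinIndep z) {v : Fin (d + 3) → K}
    (hv : ∀ i, lin (z i) v = 0) (hev : ∀ i, lin (e i) v ≠ 0)
    (hyp : ∀ l l', l ≠ l' → F.hyper l l' v ≠ 0) : EquiProj 𝒞 1 (∏ i, e i) I z := by
  classical
  obtain ⟨p, hp⟩ := exists_proj_of_linIndep z hz
  have hzp : z = fun i => p.σ.symm (PowerSeries.C (X i)) := by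
    funext i
    rw [← hp i, AlgEquiv.symm_apply_apply]
  obtain ⟨i0, j0, -, -⟩ := F.exists_pair F.l0
  have hm : m ≠ 0 := by
    rintro rfl
    exact i0.elim0
  have hv0 : v ≠ 0 := by
    rintro rfl
    apply hev i0
    unfold lin
    simp
  have htr : ∀ h, lin h v = 0 ↔ p.tr h = 0 := lin_eq_zero_iff hz p hp hv hv0
  have ht : ∀ i, p.tr (e i) ≠ 0 := fun i h => hev i ((htr _).2 h)
  have he : ∀ i, e i ∈ IsLocalRing.maximalIdeal (MvPowerSeries (Fin (d + 3)) K) := fun i =>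
    F.le_max (F.he i)
  let s : ∀ i, Sec p (e i) := fun i => (exists_sec p (e i) (he i) (ht i)).some
  obtain ⟨p₂, x₁, a₂, hlin₂, hord, hx₁, hJ₂, ha₂, ha₂m, hta₂, hxu⟩ := exists_second_proj F s ht
  obtain ⟨τ, hτ⟩ := exists_coord_zero hx₁
  obtain ⟨β, hβτ⟩ := N6_beta τ
  have hβ : β x₁ = PowerSeries.X := by
    rw [← hτ, hβτ, finSuccEquiv_X_zero]
  obtain ⟨ρ, U, hρ, hU, hρU⟩ := exists_root p₂ a₂ ha₂m hta₂
  rw [ex_eq] at hρU
  have hy₂ : p₂.σ.symm (PowerSeries.X - PowerSeries.C ρ) ∈ p.img I := by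
    have h1 : p₂.σ.symm (U * (PowerSeries.X - PowerSeries.C ρ)) ∈ p.img I := by
      rw [← hρU, AlgEquiv.symm_apply_apply]
      exact ha₂
    rw [map_mul, Ideal.unit_mul_mem_iff_mem _ (hU.map p₂.σ.symm)] at h1
    exact h1
  have hyI : up p (p₂.σ.symm (PowerSeries.X - PowerSeries.C ρ)) ∈ I := (up_mem_iff p).1 hy₂
  have hxI : up p (up p₂ x₁) ∈ I := by
    rw [← up_mem_iff, ← up_mem_iff, hJ₂]
    exact Ideal.mem_span_singleton_self _
  have hgen := N6_gen F s p₂ hρ hyI τ (by rw [hτ]; exact hxI)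
  have hlin : LinIndep ![up p (up p₂ x₁), up p (p₂.σ.symm (PowerSeries.X - PowerSeries.C ρ))] := by
    have hx1m : x₁ ∈ IsLocalRing.maximalIdeal (R1 (d + 1) K) := by
      have := hx₁.1
      rwa [pow_one] at this
    have h1 : LinIndep (fun _ : Unit => x₁) := by
      rw [linIndep_iff]
      refine ⟨fun _ => hx1m, fun c hc => ?_⟩
      rw [Fintype.sum_unique] at hc
      funext i
      by_contra hne
      have h2 : IsUnit (C (c default) : R1 (d + 1) K) := by
        rw [MvPowerSeries.isUnit_iff_constantCoeff, constantCoeff_C]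
        exact isUnit_iff_ne_zero.2 hne
      rw [Ideal.unit_mul_mem_iff_mem _ h2] at hc
      exact hx₁.2 hc
    have hym : p₂.σ.symm (PowerSeries.X - PowerSeries.C ρ) ∈
        IsLocalRing.maximalIdeal (R1 (d + 2) K) := by
      rw [IsLocalRing.mem_maximalIdeal, mem_nonunits_iff]
      intro h3
      have h4 := h3.map p₂.σ
      rw [AlgEquiv.apply_symm_apply, PowerSeries.isUnit_iff_constantCoeff] at h4
      rw [IsLocalRing.mem_maximalIdeal, mem_nonunits_iff] at hρ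
      apply hρ
      have h5 : PowerSeries.constantCoeff (PowerSeries.X - PowerSeries.C ρ) = -ρ := by
        simp
      rw [h5] at h4
      exact (IsUnit.neg_iff _).1 h4
    have hyt : p₂.tr (p₂.σ.symm (PowerSeries.X - PowerSeries.C ρ)) ≠ 0 := by
      have h3 : p₂.tr (p₂.σ.symm (PowerSeries.X - PowerSeries.C ρ)) = 1 := by
        unfold Proj.tr
        rw [AlgEquiv.apply_symm_apply, map_sub, PowerSeries.coeff_one_X, PowerSeries.coeff_C,
          if_neg one_ne_zero, sub_zero, map_one]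
      rw [h3]
      exact one_ne_zero
    have h2 := linIndep_lift p₂ h1 hym hyt
    have h3 := linIndep_lift p h2 (he i0) (ht i0)
    have h4 : (![up p (up p₂ x₁), up p (p₂.σ.symm (PowerSeries.X - PowerSeries.C ρ))] :
        Fin 2 → MvPowerSeries (Fin (d + 3)) K) =
        (fun o : Option (Option Unit) => o.elim (e i0) fun i => p.σ.symm (PowerSeries.C
          (i.elim (p₂.σ.symm (PowerSeries.X - PowerSeries.C ρ)) fun _ =>
            p₂.σ.symm (PowerSeries.C x₁)))) ∘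
        (![some (some ()), some none] : Fin 2 → Option (Option Unit)) := by
      funext k
      fin_cases k
      · rfl
      · rfl
    have hinj : Function.Injective (![some (some ()), some none] :
        Fin 2 → Option (Option Unit)) := by
      intro a b hab
      fin_cases a <;> fin_cases b <;> first | rfl | (exfalso; simp at hab)
    rw [h4]
    exact ⟨fun k => h3.1 _, h3.2.comp _ hinj⟩
  have hxv : lin (up p (up p₂ x₁)) v = 0 := (htr _).2 (tr_C p _)
  have hyv : lin (up p (p₂.σ.symm (PowerSeries.X - PowerSeries.C ρ))) v = 0 :=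
    (htr _).2 (tr_C p _)
  obtain ⟨c', hc'x, hc't, hc'ψ, hc'd⟩ := exists_new_arcs F hxI hyI hgen hlin hxu hxv hyv hyp
  have hM : F.M ≠ 0 := Nat.one_le_iff_ne_zero.1 F.hM
  obtain ⟨G, hGdef⟩ : ∃ G : Fin F.N → (R1 (d + 2) K →ₐ[K] WS d K),
      ∀ l b, G l b = c' l (up p b) := ⟨fun l => (c' l).comp (up p), fun l b => rfl⟩
  choose G₂ hG₂ using fun l => N6_G2 (G l) p₂ τ
  obtain ⟨R₂, hR₂⟩ := N6_R2 hM β τ
  have hG : ∀ l b, G l (p₂.σ.symm (PowerSeries.C b)) = ram hM (β b) := by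
    intro l b
    have h1 := hom_sub_mem (G₂ l) R₂ ⊥ (fun i => by
        rw [Ideal.mem_bot, sub_eq_zero, hG₂, hR₂, hβτ, hGdef]
        refine Fin.cases ?_ (fun j => ?_) i
        · rw [hτ, hc'x, finSuccEquiv_X_zero]
          exact (PowerSeries.expand_X F.M hM).symm
        · rw [hc't, finSuccEquiv_X_succ]
          exact (PowerSeries.expand_C F.M hM _).symm) (τ.symm b)
    rw [Ideal.mem_bot, sub_eq_zero, hG₂, hR₂, AlgEquiv.apply_symm_apply, up_apply] at h1
    exact h1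
  have hGX : ∀ l l', G l (p₂.σ.symm PowerSeries.X) - G l' (p₂.σ.symm PowerSeries.X) =
      c' l (up p (p₂.σ.symm (PowerSeries.X - PowerSeries.C ρ))) -
        c' l' (up p (p₂.σ.symm (PowerSeries.X - PowerSeries.C ρ))) := by
    intro l l'
    have h1 : ∀ l, c' l (up p (p₂.σ.symm (PowerSeries.X - PowerSeries.C ρ))) =
        G l (p₂.σ.symm PowerSeries.X) - ram hM (β ρ) := by
      intro l
      rw [← hG l ρ, ← hGdef, map_sub, map_sub]
    rw [h1, h1]
    ring
  have hGpull : ∀ l i, F.c l (e i) = 0 → ∀ f, G l ((s i).pull f) = c' l f := by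
    intro l i hli f
    obtain ⟨ψ, hψ⟩ := hc'ψ l
    have h1 : c' l (e i) = 0 := by
      rw [hψ] at hli
      exact (map_eq_zero_iff ψ ψ.injective).1 hli
    obtain ⟨w, hw⟩ := dvd_sub_up (s i) f
    have h2 := congrArg (c' l) hw
    rw [map_sub, map_mul, h1, zero_mul, sub_eq_zero] at h2
    rw [hGdef]
    exact h2.symm
  obtain ⟨H, hH⟩ : ∃ H : {ij : Fin m × Fin m // ij.1 ≠ ij.2} → R1 (d + 2) K,
      ∀ ij, H ij = (s ij.1.1).pull (F.h ij.1.1 ij.1.2) := ⟨_, fun _ => rfl⟩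
  have hHdvd : ∀ ij, H ij ∣ ∏ k, H k := fun ij => Finset.dvd_prod_of_mem H (Finset.mem_univ ij)
  obtain ⟨g, hgr, hgE⟩ := equi_one h𝒞 p₂ hlin₂ hx₁ hJ₂ ha₂ hta₂ β hβ hM G F.two hG
    (fun l l' hll => by
      rw [hGX]
      exact hc'd l l' hll)
    H (fun ij => F.L ij.1.1 ij.1.2)
    (fun ij => by
      rw [hH]
      exact F.pull_ord s ij.2)
    (fun ij => by
      rw [hH]
      exact hord _ _ ij.2)
    (fun ij l hl => by
      rw [hH, hGpull l ij.1.1 ((F.mem_L _ _ l).1 hl).1]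
      obtain ⟨ψ, hψ⟩ := hc'ψ l
      have h1 := F.h_zero ij.2 hl
      rw [hψ] at h1
      exact (map_eq_zero_iff ψ ψ.injective).1 h1)
    (fun l => by
      obtain ⟨i, j, hij, hl⟩ := F.exists_pair l
      exact ⟨⟨(i, j), hij⟩, hl⟩)
    (fun ij => by
      rw [hH]
      exact (s ij.1.1).pull_mem_img (F.he _) (F.h_mem ij.2))
  rw [hzp]
  refine ⟨isParams_of_tr p he ht hm (Associated.refl _), permissible_of_tr p (F.he i0) (ht i0),
    g, p.img I, ?_, hgE⟩
  obtain ⟨W, hW⟩ := factor_exists s (Associated.refl (∏ i, e i))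
  rw [ex_eq] at hW
  refine ⟨⟨p.σ⟩, ∏ i, (Polynomial.X - Polynomial.C (s i).r), fun i => p.σ.apply_symm_apply _,
    ⟨W, hW⟩, ?_, rfl⟩
  have hd := discr_prod fun i => (s i).r
  have hrd : (Ideal.span {(∏ i, (Polynomial.X - Polynomial.C (s i).r)).discr}) =
      Ideal.span {∏ i, ∏ j ∈ Finset.univ.filter (fun j => j ≠ i), ((s i).r - (s j).r)} :=
    Ideal.span_singleton_eq_span_singleton.2 hd
  unfold IsReducedDiscr
  rw [hgr, hrd]
  refine radical_eq_of_dvd ?_ ?_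
  · refine prod_dvd_pow _ _ _ fun ij _ => ⟨1, ?_⟩
    rw [pow_one, hH]
    refine (F.pull_rad s ij.2).1.trans (Dvd.dvd.trans ?_ (Finset.dvd_prod_of_mem
      (fun i => ∏ j ∈ Finset.univ.filter (fun j => j ≠ i), ((s i).r - (s j).r))
      (Finset.mem_univ ij.1.1)))
    exact Finset.dvd_prod_of_mem (fun j => (s ij.1.1).r - (s j).r)
      (Finset.mem_filter.2 ⟨Finset.mem_univ _, ij.2.symm⟩)
  · refine prod_dvd_pow _ _ _ fun i _ => prod_dvd_pow _ _ _ fun j hj => ?_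
    have hij : i ≠ j := (Finset.mem_filter.1 hj).2.symm
    obtain ⟨n, hn⟩ := (F.pull_rad s hij).2
    have h1 := hHdvd ⟨(i, j), hij⟩
    rw [hH] at h1
    exact ⟨n, hn.trans (pow_dvd_pow_of_dvd h1 n)⟩

end Pool.Agent.Helper85.SB
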