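import Pool.Agent.Helper85.SB.GenPos
import Pool.Agent.Helper85.SB.S
import Pool.Agent.Helper85.SB.N6
import Pool.Agent.Helper38.GP.Final

/-! The final statement for unions of smooth hypersurface germs. -/

namespace Pool.Agent.Helper85.SB

open MvPowerSeries Pool.Agent.Helper38.EQ Pool.Agent.Helper38.GP Pool.Agent.Helper85.R2

theorem det3 {K : Type} [Field K] (a b c : Fin 3 → K) : Matrix.det ![a, b, c] =
    a 0 * b 1 * c 2 - a 0 * b 2 * c 1 - a 1 * b 0 * c 2 + a 1 * b 2 * c 0 + a 2 * b 0 * c 1 -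
      a 2 * b 1 * c 0 :=
  Matrix.det_fin_three (Matrix.of ![a, b, c])

/-- The coefficients of the linear form `hyper`. -/
noncomputable def SFam.form {d m : ℕ} {K : Type} [Field K]
    {e : Fin m → MvPowerSeries (Fin (d + 3)) K} {I : Ideal (MvPowerSeries (Fin (d + 3)) K)}
    (F : SFam e I) (l l' : Fin F.N) (j : Fin (d + 3)) : K :=
  Matrix.det ![fun k => coeff (Finsupp.single j 1) (F.ξ k), fun k => res d K (F.u l' k),
    fun k => res d K (F.w l l' k)]

theorem SFam.hyper_eq {d m : ℕ} {K : Type} [Field K]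
    {e : Fin m → MvPowerSeries (Fin (d + 3)) K} {I : Ideal (MvPowerSeries (Fin (d + 3)) K)}
    (F : SFam e I) (l l' : Fin F.N) (v : Fin (d + 3) → K) :
    F.hyper l l' v = ∑ j, F.form l l' j * v j := by
  unfold SFam.hyper SFam.form
  simp only [det3]
  unfold lin
  generalize res d K (F.u l' 0) = a0
  generalize res d K (F.u l' 1) = a1
  generalize res d K (F.u l' 2) = a2
  generalize res d K (F.w l l' 0) = b0
  generalize res d K (F.w l l' 1) = b1
  generalize res d K (F.w l l' 2) = b2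
  have h1 : ∀ j, (coeff (Finsupp.single j 1) (F.ξ 0) * a1 * b2 -
      coeff (Finsupp.single j 1) (F.ξ 0) * a2 * b1 -
      coeff (Finsupp.single j 1) (F.ξ 1) * a0 * b2 +
      coeff (Finsupp.single j 1) (F.ξ 1) * a2 * b0 +
      coeff (Finsupp.single j 1) (F.ξ 2) * a0 * b1 -
      coeff (Finsupp.single j 1) (F.ξ 2) * a1 * b0) * v j =
      (a1 * b2 - a2 * b1) * (coeff (Finsupp.single j 1) (F.ξ 0) * v j) +
      ((a2 * b0 - a0 * b2) * (coeff (Finsupp.single j 1) (F.ξ 1) * v j) +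
      (a0 * b1 - a1 * b0) * (coeff (Finsupp.single j 1) (F.ξ 2) * v j)) := fun j => by ring
  rw [Finset.sum_congr rfl fun j _ => h1 j, Finset.sum_add_distrib, Finset.sum_add_distrib,
    ← Finset.mul_sum, ← Finset.mul_sum, ← Finset.mul_sum]
  ring

theorem SFam.form_ne {d m : ℕ} {K : Type} [Field K]
    {e : Fin m → MvPowerSeries (Fin (d + 3)) K} {I : Ideal (MvPowerSeries (Fin (d + 3)) K)}
    (F : SFam e I) (l l' : Fin F.N) (h : l ≠ l') : F.form l l' ≠ 0 := by
  intro hcon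
  have hw : res d K (F.w l l' 0) = 0 := by rw [F.w0 l l' h, map_zero]
  have hu : res d K (F.u l' 0) = 1 := by rw [F.u0, map_one]
  have hli : LinearIndependent K (fun k => fun j : Fin (d + 3) =>
      coeff (Finsupp.single j 1) (F.ξ k)) :=
    F.li.2.comp (Sum.inl : Fin 3 → Fin 3 ⊕ Fin d) Sum.inl_injective
  have h1 := Fintype.linearIndependent_iff.1 hli
    ![res d K (F.u l' 1) * res d K (F.w l l' 2) - res d K (F.u l' 2) * res d K (F.w l l' 1),
      -res d K (F.w l l' 2), res d K (F.w l l' 1)] (by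
    funext j
    rw [Finset.sum_apply, Fin.sum_univ_three]
    have h2 := congrFun hcon j
    unfold SFam.form at h2
    rw [det3] at h2
    simp only [Pi.smul_apply, smul_eq_mul, Matrix.cons_val_zero, Matrix.cons_val_one,
      Matrix.cons_val, Pi.zero_apply]
    rw [hw, hu] at h2
    simp only [Pi.zero_apply] at h2
    linear_combination h2)
  have h2 := h1 1
  have h3 := h1 2
  simp only [Matrix.cons_val_one, Matrix.cons_val, neg_eq_zero] at h2 h3
  rcases F.wunit l l' h with h4 | h4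
  · exact (isUnit_iff_res _).1 h4 h3
  · exact (isUnit_iff_res _).1 h4 h2

/-- Union of smooth sheets, codimension `2`, equisingular by transversal projections: all
projections with a direction off finitely many hyperplanes are equisingular. -/
theorem exists_forms {d m : ℕ} {K : Type} [Field K] [IsAlgClosed K] [CharZero K]
    {e : Fin m → MvPowerSeries (Fin (d + 3)) K}
    (he : ∀ i, e i ∈ IsLocalRing.maximalIdeal (MvPowerSeries (Fin (d + 3)) K) ∧
      e i ∉ IsLocalRing.maximalIdeal (MvPowerSeries (Fin (d + 3)) K) ^ 2)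
    {I : Ideal (MvPowerSeries (Fin (d + 3)) K)}
    (h : Equi (Trans K) 2 (d + 3) (∏ i, e i) I) :
    ∃ Λ : Finset (Fin (d + 3) → K), (∀ ℓ ∈ Λ, ℓ ≠ 0) ∧
      ∀ (z : Fin (d + 2) → MvPowerSeries (Fin (d + 3)) K) (v : Fin (d + 3) → K), LinIndep z →
        (∀ i, lin (z i) v = 0) → (∀ ℓ ∈ Λ, ∑ j, ℓ j * v j ≠ 0) →
          IsParams (∏ i, e i) z ∧ Permissible I z ∧ Transversal (∏ i, e i) z ∧
            ∀ 𝒞, HasLin 𝒞 → EquiProj 𝒞 1 (∏ i, e i) I z := by
  classical
  obtain ⟨F⟩ := exists_sfam he h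
  refine ⟨(Finset.univ.image fun i j => coeff (Finsupp.single j 1) (e i)) ∪
    ((Finset.univ.filter fun q : Fin F.N × Fin F.N => q.1 ≠ q.2).image fun q =>
      F.form q.1 q.2), ?_, ?_⟩
  · intro ℓ hℓ
    rcases Finset.mem_union.1 hℓ with h1 | h1
    · obtain ⟨i, -, rfl⟩ := Finset.mem_image.1 h1
      intro h2
      apply (he i).2
      rw [Pool.Agent.Helper38.ED.LIBasic1_mem_sq_iff]
      exact ⟨(mem_maximalIdeal_iff_constantCoeff _).1 (he i).1, fun j => congrFun h2 j⟩
    · obtain ⟨q, hq, rfl⟩ := Finset.mem_image.1 h1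
      exact F.form_ne _ _ (Finset.mem_filter.1 hq).2
  · intro z v hz hv hΛ
    have hev : ∀ i, lin (e i) v ≠ 0 := fun i =>
      hΛ _ (Finset.mem_union_left _ (Finset.mem_image.2 ⟨i, Finset.mem_univ _, rfl⟩))
    have hyp : ∀ l l', l ≠ l' → F.hyper l l' v ≠ 0 := by
      intro l l' hll
      rw [F.hyper_eq]
      exact hΛ _ (Finset.mem_union_right _ (Finset.mem_image.2
        ⟨(l, l'), Finset.mem_filter.2 ⟨Finset.mem_univ _, hll⟩, rfl⟩))
    -- the coordinates
    obtain ⟨p, hp⟩ := exists_proj_of_linIndep z hz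
    have hzp : z = fun i => p.σ.symm (PowerSeries.C (X i)) := by
      funext i
      rw [← hp i, AlgEquiv.symm_apply_apply]
    have hlN : 0 < F.N := by
      have := F.two
      omega
    obtain ⟨i₀, -, -, -⟩ := F.exists_pair ⟨0, hlN⟩
    have hm : m ≠ 0 := by
      rintro rfl
      exact i₀.elim0
    have hv0 : v ≠ 0 := by
      rintro rfl
      apply hev i₀
      unfold lin
      simp
    obtain ⟨c, hc, hcv⟩ := exists_smul_tr z hz p hp hv hv0
    have hte : ∀ i, p.tr (e i) ≠ 0 := by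
      intro i
      have h1 : p.tr (e i) = c * lin (e i) v := by
        rw [p.tr_eq_lin]
        unfold lin
        rw [Finset.mul_sum]
        refine Finset.sum_congr rfl fun j _ => ?_
        change coeff (Finsupp.single j 1) (e i) * p.tr (X j) = _
        rw [hcv]
        ring
      rw [h1]
      exact mul_ne_zero hc (hev i)
    have he1 : ∀ i, e i ∈ IsLocalRing.maximalIdeal (MvPowerSeries (Fin (d + 3)) K) :=
      fun i => (he i).1
    refine ⟨?_, ?_, ?_, fun 𝒞 h𝒞 => equiProj_new h𝒞 F hz hv hev hyp⟩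
    · rw [hzp]
      exact isParams_of_tr p he1 hte hm (Associated.refl _)
    · rw [hzp]
      exact permissible_of_tr p (F.he i₀) (hte i₀)
    · rw [hzp]
      exact transversal_of_tr p he1 hte (Associated.refl _)

/-- The number of variables is at least `3`. -/
theorem three_le {n : ℕ} {K : Type} [Field K] {𝒞 : ProjClass K}
    {f : MvPowerSeries (Fin (n + 1)) K} {I : Ideal (MvPowerSeries (Fin (n + 1)) K)}
    (h : Equi 𝒞 2 (n + 1) f I) : ∃ d, n = d + 2 := by
  obtain ⟨-, z, -, -, -, g, I', -, hE⟩ := h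
  cases n with
  | zero => exact hE.elim
  | succ n =>
    obtain ⟨-, z', -, -, -, g', I'', -, hE'⟩ := hE
    cases n with
    | zero =>
      exfalso
      obtain ⟨h1, h2, -⟩ := hE'
      apply h2
      have h3 : g' = 0 := by
        have h4 : constantCoeff g' = 0 := (mem_maximalIdeal_iff_constantCoeff _).1 h1
        ext ν
        rw [show ν = 0 from Subsingleton.elim _ _, coeff_zero_eq_constantCoeff_apply, h4, map_zero]
      rw [h3]
      exact Ideal.zero_mem _
    | succ d => exact ⟨d, rfl⟩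

/-- The first part of the result. -/
theorem exists_forms' {n m : ℕ} {K : Type} [Field K] [IsAlgClosed K] [CharZero K]
    (e : Fin m → MvPowerSeries (Fin (n + 1)) K)
    (he : ∀ i, e i ∈ IsLocalRing.maximalIdeal (MvPowerSeries (Fin (n + 1)) K) ∧
      e i ∉ IsLocalRing.maximalIdeal (MvPowerSeries (Fin (n + 1)) K) ^ 2)
    (I : Ideal (MvPowerSeries (Fin (n + 1)) K))
    (h : Equi (Trans K) 2 (n + 1) (∏ i, e i) I) :
    ∃ Λ : Finset (Fin (n + 1) → K), (∀ ℓ ∈ Λ, ℓ ≠ 0) ∧
      ∀ (z : Fin n → MvPowerSeries (Fin (n + 1)) K) (v : Fin (n + 1) → K), LinIndep z →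
        (∀ i, lin (z i) v = 0) → (∀ ℓ ∈ Λ, ∑ j, ℓ j * v j ≠ 0) →
          IsParams (∏ i, e i) z ∧ Permissible I z ∧ Transversal (∏ i, e i) z ∧
            ∀ 𝒞, HasLin 𝒞 → EquiProj 𝒞 1 (∏ i, e i) I z := by
  obtain ⟨d, rfl⟩ := three_le h
  exact exists_forms he h

/-- The second part of the result: generic coefficients. -/
theorem exists_generic_pos {n m : ℕ} (e : Fin m → MvPowerSeries (Fin (n + 1)) ℂ)
    (he : ∀ i, e i ∈ IsLocalRing.maximalIdeal (MvPowerSeries (Fin (n + 1)) ℂ) ∧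
      e i ∉ IsLocalRing.maximalIdeal (MvPowerSeries (Fin (n + 1)) ℂ) ^ 2)
    (I : Ideal (MvPowerSeries (Fin (n + 1)) ℂ))
    (h : Equi (Trans ℂ) 2 (n + 1) (∏ i, e i) I) :
    ∃ G : MvPolynomial (Fin n × {ν : Fin (n + 1) →₀ ℕ // ν ≠ 0}) ℂ, G ≠ 0 ∧
      ∀ z : Fin n → MvPowerSeries (Fin (n + 1)) ℂ, (∀ i, constantCoeff (z i) = 0) →
        MvPolynomial.eval (fun p => coeff p.2.1 (z p.1)) G ≠ 0 →
          IsParams (∏ i, e i) z ∧ Permissible I z ∧ Transversal (∏ i, e i) z ∧
            ∀ 𝒞, HasLin 𝒞 → EquiProj 𝒞 1 (∏ i, e i) I z := by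
  classical
  obtain ⟨d, rfl⟩ := three_le h
  obtain ⟨Λ, hΛ0, hΛ⟩ := exists_forms he h
  let Q : MvPolynomial (Fin (d + 3)) ℂ := ∏ ℓ ∈ Λ, ∑ j, MvPolynomial.C (ℓ j) * MvPolynomial.X j
  have hQe : ∀ v, MvPolynomial.eval v Q = ∏ ℓ ∈ Λ, ∑ j, ℓ j * v j := by
    intro v
    change MvPolynomial.eval v (∏ ℓ ∈ Λ, ∑ j, MvPolynomial.C (ℓ j) * MvPolynomial.X j) = _
    rw [map_prod]
    refine Finset.prod_congr rfl fun ℓ _ => ?_
    rw [map_sum]
    refine Finset.sum_congr rfl fun j _ => ?_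
    rw [map_mul, MvPolynomial.eval_C, MvPolynomial.eval_X]
  have hQ : Q ≠ 0 := by
    refine Finset.prod_ne_zero_iff.2 fun ℓ hℓ h0 => hΛ0 ℓ hℓ ?_
    funext j
    have h1 := congrArg (MvPolynomial.eval (Pi.single j 1)) h0
    rw [map_sum, map_zero, Finset.sum_eq_single j] at h1
    · rw [map_mul, MvPolynomial.eval_C, MvPolynomial.eval_X, Pi.single_eq_same, mul_one] at h1
      exact h1
    · intro b _ hb
      rw [map_mul, MvPolynomial.eval_C, MvPolynomial.eval_X, Pi.single_eq_of_ne hb, mul_zero]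
    · intro h2
      exact absurd (Finset.mem_univ j) h2
  obtain ⟨G, hG0, hG⟩ := exists_good_poly Q hQ
  refine ⟨G, hG0, fun z hz0 hzG => ?_⟩
  obtain ⟨hz, v, hv, -, hvQ⟩ := hG z hz0 hzG
  rw [hQe] at hvQ
  exact hΛ z v hz hv fun ℓ hℓ => Finset.prod_ne_zero_iff.1 hvQ ℓ hℓ

end Pool.Agent.Helper85.SB
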