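import Pool.Agent.Helper85.SB.Defs
import Pool.Agent.Helper85.R2.Gen

/-! Generic coefficients: a polynomial whose nonvanishing makes the direction of the projection
avoid a given hypersurface. -/

namespace Pool.Agent.Helper85.SB

open MvPowerSeries Pool.Agent.Helper38.EQ Pool.Agent.Helper38.GP Pool.Agent.Helper85.R2

/-- For every nonzero polynomial `Q` in the coordinates there is a nonzero polynomial `G` in the
coefficients such that `G(a) ≠ 0` implies that the linear parts are independent and that the line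
`l_z` is spanned by a vector `v` with `Q(v) ≠ 0`. -/
theorem exists_good_poly {n : ℕ} (Q : MvPolynomial (Fin (n + 2)) ℂ) (hQ : Q ≠ 0) :
    ∃ G : MvPolynomial (IX (n + 1)) ℂ, G ≠ 0 ∧
      ∀ z : Fin (n + 1) → MvPowerSeries (Fin (n + 2)) ℂ, (∀ i, constantCoeff (z i) = 0) →
        MvPolynomial.eval (fun p => coeff p.2.1 (z p.1)) G ≠ 0 →
        LinIndep z ∧ ∃ v : Fin (n + 2) → ℂ, (∀ i, lin (z i) v = 0) ∧ v 0 ≠ 0 ∧
          MvPolynomial.eval v Q ≠ 0 := by
  classical
  set H : MvPolynomial (IX (n + 1)) ℂ :=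
    MvPolynomial.bind₁ (mins (fun p => MvPolynomial.X p)) (Q * MvPolynomial.X 0) with hH
  have hHe : ∀ a : IX (n + 1) → ℂ, MvPolynomial.eval a H =
      MvPolynomial.eval (mins a) (Q * MvPolynomial.X 0) := by
    intro a
    rw [hH]
    have h1 : ∀ P : MvPolynomial (Fin (n + 2)) ℂ,
        MvPolynomial.eval a (MvPolynomial.bind₁ (mins (fun p => MvPolynomial.X p)) P) =
          MvPolynomial.eval (mins a) P := by
      intro P
      have h2 : (MvPolynomial.eval a).comp (MvPolynomial.bind₁
          (mins (fun p : IX (n + 1) => (MvPolynomial.X p : MvPolynomial (IX (n + 1)) ℂ)))).toRingHom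
            = MvPolynomial.eval (mins a) := by
        refine MvPolynomial.ringHom_ext (fun r => ?_) (fun j => ?_)
        · change MvPolynomial.eval a (MvPolynomial.bind₁ _ (MvPolynomial.C r)) = _
          rw [MvPolynomial.bind₁_C_right, MvPolynomial.eval_C, MvPolynomial.eval_C]
        · change MvPolynomial.eval a (MvPolynomial.bind₁ _ (MvPolynomial.X j)) = _
          rw [MvPolynomial.bind₁_X_right, MvPolynomial.eval_X, mins_map]
          congr 1
          funext p
          exact MvPolynomial.eval_X _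
      exact congrArg (fun f : MvPolynomial (Fin (n + 2)) ℂ →+* ℂ => f P) h2
    exact h1 _
  have hH0 : H ≠ 0 := by
    obtain ⟨v, hv⟩ : ∃ v : Fin (n + 2) → ℂ,
        MvPolynomial.eval v (Q * MvPolynomial.X 0) ≠ 0 := by
      by_contra hcon
      push Not at hcon
      exact (mul_ne_zero hQ (MvPolynomial.X_ne_zero 0))
        (MvPolynomial.funext fun x => by rw [hcon x, map_zero])
    have hv0 : v 0 ≠ 0 := by
      intro h
      apply hv
      rw [map_mul, MvPolynomial.eval_X, h, mul_zero]
    obtain ⟨a, ha⟩ := exists_mins v hv0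
    intro h
    apply hv
    rw [← ha, ← hHe, h, map_zero]
  refine ⟨H, hH0, fun z hz0 hG => ?_⟩
  let a : IX (n + 1) → ℂ := fun p => coeff p.2.1 (z p.1)
  have ha : ∀ i j, coeff (Finsupp.single j 1) (z i) = a (ix i j) := fun _ _ => rfl
  change MvPolynomial.eval a H ≠ 0 at hG
  rw [hHe, map_mul, MvPolynomial.eval_X] at hG
  have hQ' : MvPolynomial.eval (mins a) Q ≠ 0 := left_ne_zero_of_mul hG
  have h0' : mins a 0 ≠ 0 := right_ne_zero_of_mul hG
  have hdet : (mat a).det ≠ 0 := by
    intro h
    apply h0'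
    change -(mat a).det = 0
    rw [h, neg_zero]
  refine ⟨⟨hz0, ?_⟩, mins a, ?_, h0', hQ'⟩
  · refine LinearIndependent.of_comp
      (LinearMap.funLeft ℂ ℂ (Fin.succ : Fin (n + 1) → Fin (n + 2))) ?_
    have h1 : ((LinearMap.funLeft ℂ ℂ (Fin.succ : Fin (n + 1) → Fin (n + 2))) ∘
        fun i => fun j : Fin (n + 2) => coeff (Finsupp.single j 1) (z i)) = (mat a).row := by
      funext i j
      exact ha i j.succ
    rw [h1, Matrix.linearIndependent_rows_iff_isUnit, Matrix.isUnit_iff_isUnit_det]
    exact isUnit_iff_ne_zero.2 hdet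
  · intro i
    unfold lin
    rw [← mins_ker a i]
    exact Finset.sum_congr rfl fun j _ => by rw [ha]

end Pool.Agent.Helper85.SB
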