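import Pool.Agent.Helper38.SB.Rad
import Pool.Agent.Helper38.SB.Ord

/-! Block J: the roots of an equisingular family of plane curves. -/

namespace Pool.Agent.Helper85.SB

open MvPowerSeries Pool.Agent.Helper38.EQ Pool.Agent.Helper38.GP

/-- (J) `Equi (Trans K) 1`: a permissible transversal projection with smooth critical variety.
Proof: in coordinates of the base with `g₁ = x` (`LiftBase_coord`, `finSuccEquiv`: `β : B ≃ WS d K`,
`β g₁ = X`) the Weierstrass polynomial `P` of `g` splits after `x = s ^ M` (`exists_roots` with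
`Γ = β`), with roots `a_l` in the maximal ideal and differences powers of `s`. `I = (x, y)` with
`y = Y - ρ(t)` by `exists_graph` and `I₁ = (g₁)`. Transversality: the order of `g` is the degree `N`
of `P`, hence at `t = 0` the roots are divisible by `s ^ M`, hence all differences (for `l ≠ l'`
and for conjugate roots) are divisible by `s ^ M`, hence `a_l - ρ` is. `rad`: for `h ∣ g ^ k` the
Weierstrass polynomial of `h` is over `K⟦w⟧⟦s⟧` a product of `Y - a_l`; the set of the `l` with
`G l h = 0` is invariant under `s ↦ ζ s`, so (R1) gives `h₀`; its order is its degree, as the order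
is at most the degree, for `h₀` and for `g / h₀`, and the sum of the orders is `N`. `2 ≤ N`, as
the discriminant of `P` is not a unit. -/
theorem exists_fam {d : ℕ} {K : Type} [Field K] [IsAlgClosed K] [CharZero K]
    {g : MvPowerSeries (Fin (d + 2)) K} {I : Ideal (MvPowerSeries (Fin (d + 2)) K)}
    (h : Equi (Trans K) 1 (d + 2) g I) : Nonempty (Fam g I) := by
  classical
  obtain ⟨D⟩ := Pool.Agent.Helper38.SB.exists_dat h
  obtain ⟨b, hb⟩ := D.exists_b
  refine ⟨⟨D.P.natDegree, D.M, D.two, Nat.one_le_iff_ne_zero.2 D.hM, D.x, D.y, D.t, D.hI', D.li',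
    D.G, b, D.G_x, hb, D.G_t, D.G_diff, D.dich, ?_, D.G_g⟩⟩
  intro h k hh
  let L : Finset (Fin D.P.natDegree) := Finset.univ.filter fun l => D.G l h = 0
  have hL : ∀ l, l ∈ L ↔ D.G l h = 0 := fun l => by simp [L]
  obtain ⟨H, hH⟩ := D.exists_prod hh L hL
  exact ⟨_, Pool.Agent.Helper38.SB.Dat.radical_eq hh hL hH, L, hL, D.hasOrd L hH⟩

end Pool.Agent.Helper85.SB
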