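import Pool.Agent.Helper85.SB.Defs

/-! Block N2: the image of a smooth germ. -/

namespace Pool.Agent.Helper85.SB

open MvPowerSeries Pool.Agent.Helper38.EQ Pool.Agent.Helper38.GP

section

variable {n : ℕ} {K : Type} [Field K]

theorem mem_pow_iff_le_order {h : MvPowerSeries (Fin n) K} {a : ℕ} :
    h ∈ IsLocalRing.maximalIdeal (MvPowerSeries (Fin n) K) ^ a ↔ (a : ℕ∞) ≤ h.order := by
  rw [mem_maximalIdeal_pow_iff]
  constructor
  · intro h1
    refine nat_le_order fun α hα => h1 α ?_
    rwa [← Finsupp.degree_eq_sum]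
  · intro h1 α hα
    refine coeff_of_lt_order ?_
    rw [Finsupp.degree_eq_sum]
    exact lt_of_lt_of_le (by exact_mod_cast hα) h1

theorem hasOrd_iff {h : MvPowerSeries (Fin n) K} {a : ℕ} : HasOrd h a ↔ h.order = a := by
  unfold HasOrd
  rw [mem_pow_iff_le_order, mem_pow_iff_le_order, not_le, Nat.cast_add, Nat.cast_one]
  constructor
  · rintro ⟨h1, h2⟩
    refine le_antisymm ?_ h1
    exact ENat.lt_add_one_iff (ENat.natCast_ne_top a) |>.1 h2
  · intro h1
    rw [h1]
    refine ⟨le_rfl, ?_⟩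
    exact ENat.lt_add_one_iff (ENat.natCast_ne_top a) |>.2 le_rfl

/-- (N2') The order is multiplicative, and the least parts too. -/
theorem HasOrd.mul {g h : MvPowerSeries (Fin n) K} {a b : ℕ}
    (hg : HasOrd g a) (hh : HasOrd h b) : HasOrd (g * h) (a + b) := by
  rw [hasOrd_iff] at hg hh ⊢
  rw [order_mul, hg, hh, Nat.cast_add]

theorem exists_hasOrd {g : MvPowerSeries (Fin n) K} (hg : g ≠ 0) : ∃ a, HasOrd g a := by
  have h1 : g.order ≠ ⊤ := by
    rw [Ne, order_eq_top_iff]
    exact hg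
  obtain ⟨a, ha⟩ := ENat.ne_top_iff_exists.1 h1
  exact ⟨a, hasOrd_iff.2 ha.symm⟩

/-- (N2'') A divisor of a transversal germ is transversal. -/
theorem exists_ord_of_dvd {g h : MvPowerSeries (Fin n) K} {b : ℕ}
    {v : Fin n → K} (hh : HasOrd h b) (hv : homPart h b v ≠ 0) (hd : g ∣ h) :
    ∃ a, HasOrd g a ∧ homPart g a v ≠ 0 := by
  obtain ⟨c, rfl⟩ := hd
  have h0 : g * c ≠ 0 := by
    intro h1
    apply hv
    rw [h1]
    simp [homPart]
  obtain ⟨a, ha⟩ := exists_hasOrd (left_ne_zero_of_mul h0)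
  obtain ⟨a', ha'⟩ := exists_hasOrd (right_ne_zero_of_mul h0)
  have h1 : b = a + a' := by
    have h2 := hasOrd_iff.1 (ha.mul ha')
    rw [hasOrd_iff.1 hh] at h2
    exact_mod_cast h2
  have hc : ∀ {f : MvPowerSeries (Fin n) K} {k : ℕ}, HasOrd f k →
      ∀ ν : Fin n →₀ ℕ, ν.degree < k → coeff ν f = 0 := by
    intro f k hf ν hν
    refine (mem_maximalIdeal_pow_iff k f).1 hf.1 ν ?_
    rw [← Finsupp.degree_eq_sum]
    exact hν
  have h3 := (homPart_mul (hc ha) (hc ha') v).2
  rw [← h1] at h3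
  rw [h3] at hv
  exact ⟨a, ha, left_ne_zero_of_mul hv⟩

end

/-- (N2) The image of a smooth germ of codimension `c + 1` under a permissible projection is a
smooth germ of codimension `c`. -/
theorem exists_img {n c : ℕ} {K : Type} [Field K] {p : Proj n K}
    {ξ : Fin (c + 1) → MvPowerSeries (Fin (n + 1)) K} (hξ : LinIndep ξ)
    {e : MvPowerSeries (Fin (n + 1)) K} (he : e ∈ Ideal.span (Set.range ξ)) (ht : p.tr e ≠ 0) :
    ∃ q : Fin c → R1 n K, LinIndep q ∧
      p.img (Ideal.span (Set.range ξ)) = Ideal.span (Set.range q) := by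
  classical
  obtain ⟨k0, hk0⟩ : ∃ k0, p.tr (ξ k0) ≠ 0 := by
    by_contra hcon
    push Not at hcon
    apply ht
    obtain ⟨a, rfl⟩ := (Ideal.mem_span_range_iff_exists_fun).1 he
    rw [p.tr_eq_lin]
    unfold lin
    have h1 : ∀ j, coeff (Finsupp.single j 1) (∑ k, a k * ξ k) =
        ∑ k, constantCoeff (a k) * coeff (Finsupp.single j 1) (ξ k) := by
      intro j
      rw [map_sum]
      exact Finset.sum_congr rfl fun k _ =>
        Pool.Agent.Helper38.ED.LIBasic_coeff_mul _ _ (hξ.1 k) j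
    simp only [h1, Finset.sum_mul]
    rw [Finset.sum_comm]
    refine Finset.sum_eq_zero fun k _ => ?_
    have h2 := hcon k
    rw [p.tr_eq_lin] at h2
    unfold lin at h2
    have h3 : ∀ j, constantCoeff (a k) * coeff (Finsupp.single j 1) (ξ k) * p.tr (X j) =
        constantCoeff (a k) * (coeff (Finsupp.single j 1) (ξ k) * p.tr (X j)) := fun j => by ring
    simp only [h3]
    rw [← Finset.mul_sum, h2, mul_zero]
  have hk0m : ξ k0 ∈ IsLocalRing.maximalIdeal (MvPowerSeries (Fin (n + 1)) K) :=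
    (mem_maximalIdeal_iff_constantCoeff _).2 (hξ.1 k0)
  obtain ⟨s⟩ := exists_sec p (ξ k0) hk0m hk0
  have hmem : ∀ k, ξ k ∈ Ideal.span (Set.range ξ) := fun k => Ideal.subset_span ⟨k, rfl⟩
  refine ⟨fun k => s.pull (ξ (k0.succAbove k)), ?_, le_antisymm ?_ ?_⟩
  · refine s.LI_pull (fun k => ξ (k0.succAbove k)) ?_
    have hinj : Function.Injective (Fin.cons k0 k0.succAbove : Fin (c + 1) → Fin (c + 1)) := by
      rw [Fin.cons_injective_iff]
      refine ⟨?_, Fin.succAbove_right_injective⟩
      rintro ⟨k, hk⟩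
      exact Fin.succAbove_ne k0 k hk
    have h1 := Pool.Agent.Helper38.ED.LI.comp (h := ξ) hξ
      (Fin.cons k0 k0.succAbove : Fin (c + 1) → Fin (c + 1)) hinj
    have h2 : (fun i => ξ ((Fin.cons k0 k0.succAbove : Fin (c + 1) → Fin (c + 1)) i)) =
        (Fin.cons (ξ k0) (fun k => ξ (k0.succAbove k)) :
          Fin (c + 1) → MvPowerSeries (Fin (n + 1)) K) := by
      funext i
      refine Fin.cases ?_ (fun j => ?_) i
      · rfl
      · rfl
    rwa [h2] at h1
  · intro b hb
    have h1 : PowerSeries.C b ∈ Ideal.map p.σ (Ideal.span (Set.range ξ)) := hb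
    have h2 := Ideal.mem_map_of_mem s.ε h1
    rw [s.ε_C] at h2
    have h3 : Ideal.map s.ε (Ideal.map p.σ (Ideal.span (Set.range ξ))) ≤
        Ideal.span (Set.range fun k => s.pull (ξ (k0.succAbove k))) := by
      rw [Ideal.map_span, Ideal.map_span, Ideal.span_le]
      rintro _ ⟨_, ⟨_, ⟨k, rfl⟩, rfl⟩, rfl⟩
      have h4 : s.ε (p.σ (ξ k)) = s.pull (ξ k) := by
        rw [Sec.pull_apply, ex_eq]
      rw [h4]
      rcases Fin.eq_self_or_eq_succAbove k0 k with h5 | ⟨k', h5⟩
      · rw [h5, s.pull_self]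
        exact Ideal.zero_mem _
      · rw [h5]
        exact Ideal.subset_span ⟨k', rfl⟩
    exact h3 h2
  · rw [Ideal.span_le]
    rintro _ ⟨k, rfl⟩
    exact s.pull_mem_img (hmem k0) (hmem _)

/-- (N2, third part) A transversal germ is a distinguished polynomial whose degree is the order. -/
theorem exists_wfac {n : ℕ} {K : Type} [Field K] (p : Proj n K)
    {h : MvPowerSeries (Fin (n + 1)) K} {a : ℕ} (ho : HasOrd h a)
    (ht : homPart h a (fun j => p.tr (X j)) ≠ 0) :
    ∃ H U, (p.σ h).IsWeierstrassFactorization H U ∧ H.natDegree = a := by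
  classical
  have hcomp := isAdicComplete_mvPowerSeries n K
  let Ψ : MvPowerSeries (Fin (n + 1)) K →+* PowerSeries K :=
    (PowerSeries.map (constantCoeff (σ := Fin n) (R := K))).comp
      (p.σ : MvPowerSeries (Fin (n + 1)) K →+* PowerSeries (R1 n K))
  have hΨ : ∀ f i, PowerSeries.coeff i (Ψ f) = constantCoeff (PowerSeries.coeff i (p.σ f)) :=
    fun f i => rfl
  have h1 : ∀ f ∈ IsLocalRing.maximalIdeal (MvPowerSeries (Fin (n + 1)) K),
      PowerSeries.X ∣ Ψ f := by
    intro f hf
    rw [PowerSeries.X_dvd_iff, ← PowerSeries.coeff_zero_eq_constantCoeff_apply, hΨ]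
    by_contra hne
    have h2 : IsUnit (p.σ f) := by
      rw [PowerSeries.isUnit_iff_constantCoeff, MvPowerSeries.isUnit_iff_constantCoeff,
        ← PowerSeries.coeff_zero_eq_constantCoeff_apply]
      exact isUnit_iff_ne_zero.2 hne
    have h3 := h2.map p.σ.symm
    rw [AlgEquiv.symm_apply_apply] at h3
    exact hf h3
  have hpow : ∀ k, ∀ f ∈ IsLocalRing.maximalIdeal (MvPowerSeries (Fin (n + 1)) K) ^ k,
      (PowerSeries.X : PowerSeries K) ^ k ∣ Ψ f := by
    intro k f hf
    have h2 : IsLocalRing.maximalIdeal (MvPowerSeries (Fin (n + 1)) K) ≤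
        Ideal.comap Ψ (Ideal.span {PowerSeries.X}) := fun g hg => by
      rw [Ideal.mem_comap, Ideal.mem_span_singleton]
      exact h1 g hg
    have h3 := (Ideal.pow_right_mono h2 k).trans (Ideal.le_comap_pow Ψ k)
    have h4 := h3 hf
    rwa [Ideal.mem_comap, Ideal.span_singleton_pow, Ideal.mem_span_singleton] at h4
  have hq : ∀ j, ∃ q : PowerSeries K, Ψ (X j) = PowerSeries.X * q ∧
      PowerSeries.constantCoeff q = p.tr (X j) := by
    intro j
    obtain ⟨q, hq⟩ := h1 (X j) ((mem_maximalIdeal_iff_constantCoeff _).2 (constantCoeff_X _))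
    refine ⟨q, hq, ?_⟩
    have h2 := hΨ (X j) 1
    rw [hq] at h2
    have h3 : PowerSeries.coeff 1 (PowerSeries.X * q) = PowerSeries.constantCoeff q := by
      rw [show (1 : ℕ) = 0 + 1 from rfl, mul_comm, PowerSeries.coeff_succ_mul_X,
        PowerSeries.coeff_zero_eq_constantCoeff_apply]
    rw [h3] at h2
    exact h2
  choose q hq1 hq2 using hq
  have hC : ∀ c : K, Ψ (C c) = PowerSeries.C c := by
    intro c
    have h2 := p.σ.commutes c
    have h3 : algebraMap K (SL n K) c = C c := rfl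
    have h4 : algebraMap K (PowerSeries (R1 n K)) c = PowerSeries.C (C c) := by
      rw [IsScalarTower.algebraMap_apply K (R1 n K) (PowerSeries (R1 n K))]
      rfl
    rw [h3, h4] at h2
    show PowerSeries.map (constantCoeff (σ := Fin n) (R := K)) (p.σ (C c)) = _
    rw [h2, PowerSeries.map_C, constantCoeff_C]
  have hmon : ∀ (ν : Fin (n + 1) →₀ ℕ) (c : K), ν.degree = a →
      PowerSeries.coeff a (Ψ (monomial ν c)) = c * ∏ j, p.tr (X j) ^ ν j := by
    intro ν c hν
    have h2 : (monomial ν c : MvPowerSeries (Fin (n + 1)) K) = C c * ∏ j, X j ^ ν j := by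
      rw [MvPowerSeries.monomial_eq', Finsupp.prod_fintype _ _ fun j => pow_zero _]
    have h3 : Ψ (monomial ν c) = PowerSeries.X ^ a * (PowerSeries.C c * ∏ j, q j ^ ν j) := by
      rw [h2, map_mul, hC, map_prod]
      have h4 : ∀ j, Ψ (X j ^ ν j) = PowerSeries.X ^ ν j * q j ^ ν j := fun j => by
        rw [map_pow, hq1, mul_pow]
      simp only [h4]
      rw [Finset.prod_mul_distrib, Finset.prod_pow_eq_pow_sum, ← Finsupp.degree_eq_sum, hν]
      ring
    rw [h3, PowerSeries.coeff_X_pow_mul', if_pos le_rfl, Nat.sub_self,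
      PowerSeries.coeff_zero_eq_constantCoeff_apply, map_mul, map_prod, PowerSeries.constantCoeff_C]
    congr 1
    refine Finset.prod_congr rfl fun j _ => ?_
    rw [map_pow, hq2]
  have hlead : PowerSeries.coeff a (Ψ h) = homPart h a (fun j => p.tr (X j)) := by
    have hmem : ∀ ν : Fin (n + 1) →₀ ℕ, ν ∈ Finset.univ.finsuppAntidiag a ↔ ν.degree = a := by
      intro ν
      rw [Finset.mem_finsuppAntidiag, Finsupp.degree_eq_sum]
      exact ⟨fun h => h.1, fun h => ⟨h, Finset.subset_univ _⟩⟩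
    set g : MvPowerSeries (Fin (n + 1)) K :=
      ∑ ν ∈ Finset.univ.finsuppAntidiag a, monomial ν (coeff ν h) with hg
    have h2 : h - g ∈ IsLocalRing.maximalIdeal (MvPowerSeries (Fin (n + 1)) K) ^ (a + 1) := by
      rw [mem_maximalIdeal_pow_iff]
      intro α hα
      rw [← Finsupp.degree_eq_sum] at hα
      rw [map_sub, hg, map_sum]
      rcases Nat.lt_or_ge α.degree a with h3 | h3
      · have h4 : coeff α h = 0 := by
          refine (mem_maximalIdeal_pow_iff a h).1 ho.1 α ?_
          rwa [← Finsupp.degree_eq_sum]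
        rw [h4, zero_sub, neg_eq_zero]
        refine Finset.sum_eq_zero fun ν hν => ?_
        rw [coeff_monomial, if_neg]
        rintro rfl
        rw [hmem] at hν
        omega
      · rw [Finset.sum_eq_single α]
        · rw [coeff_monomial_same, sub_self]
        · intro ν _ hne
          rw [coeff_monomial, if_neg hne.symm]
        · intro h4
          exact absurd ((hmem α).2 (by omega)) h4
    have h3 := hpow (a + 1) _ h2
    rw [PowerSeries.X_pow_dvd_iff] at h3
    have h4 := h3 a (Nat.lt_succ_self a)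
    rw [map_sub, map_sub, sub_eq_zero] at h4
    rw [h4, hg, map_sum, map_sum]
    unfold homPart
    refine Finset.sum_congr rfl fun ν hν => ?_
    exact hmon ν _ ((hmem ν).1 hν)
  have hlow : ∀ i, i < a → PowerSeries.coeff i (Ψ h) = 0 := by
    intro i hi
    exact PowerSeries.X_pow_dvd_iff.1 (hpow a h ho.1) i hi
  have hres : ∀ i, PowerSeries.coeff i ((p.σ h).map (IsLocalRing.residue (R1 n K))) = 0 ↔
      PowerSeries.coeff i (Ψ h) = 0 := by
    intro i
    rw [PowerSeries.coeff_map, IsLocalRing.residue_eq_zero_iff,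
      mem_maximalIdeal_iff_constantCoeff, hΨ]
  have hca : PowerSeries.coeff a ((p.σ h).map (IsLocalRing.residue (R1 n K))) ≠ 0 := by
    rw [Ne, hres, hlead]
    exact ht
  have hne : (p.σ h).map (IsLocalRing.residue (R1 n K)) ≠ 0 := by
    intro h0
    rw [h0] at hca
    exact hca (map_zero _)
  obtain ⟨F, U, hF⟩ := PowerSeries.exists_isWeierstrassFactorization hne
  refine ⟨F, U, hF, ?_⟩
  have hord : ((p.σ h).map (IsLocalRing.residue (R1 n K))).order = a := by
    rw [PowerSeries.order_eq]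
    constructor
    · intro i hi
      have : i = a := by exact_mod_cast hi
      subst this
      exact hca
    · intro i hi
      have h2 : i < a := by exact_mod_cast hi
      exact (hres i).2 (hlow i h2)
  rw [hF.natDegree_eq_toNat_order_map, hord]
  rfl

end Pool.Agent.Helper85.SB
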