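import Pool.Agent.Helper85.SB.Defs

/-! Block R: descent of polynomials with `s ↦ ζ s`-invariant roots. -/

namespace Pool.Agent.Helper85.SB

open MvPowerSeries Pool.Agent.Helper38.EQ Pool.Agent.Helper38.GP

/-- The substitution `s ↦ ζ s` in `K⟦w⟧⟦s⟧`. -/
noncomputable def rot {d : ℕ} {K : Type} [Field K] (ζ : K) : WS d K →+* WS d K :=
  PowerSeries.rescale (C ζ)

/-- The ramification `s ↦ s ^ M`. -/
noncomputable def ram {d : ℕ} {K : Type} [Field K] {M : ℕ} (hM : M ≠ 0) : WS d K →+* WS d K :=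
  (PowerSeries.expand M hM : WS d K →ₐ[MvPowerSeries (Fin d) K] WS d K).toRingHom

theorem coeff_rot {d : ℕ} {K : Type} [Field K] (ζ : K) (φ : WS d K) (n : ℕ) :
    PowerSeries.coeff n (rot ζ φ) = C (ζ ^ n) * PowerSeries.coeff n φ := by
  rw [rot, PowerSeries.coeff_rescale, map_pow]

theorem coeff_ram {d : ℕ} {K : Type} [Field K] {M : ℕ} (hM : M ≠ 0) (φ : WS d K) (n : ℕ) :
    PowerSeries.coeff n (ram hM φ) = if M ∣ n then PowerSeries.coeff (n / M) φ else 0 :=
  PowerSeries.coeff_expand M hM φ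

theorem ram_apply {d : ℕ} {K : Type} [Field K] {M : ℕ} (hM : M ≠ 0) (φ : WS d K) :
    ram hM φ = PowerSeries.expand M hM φ := rfl

theorem ram_injective {d : ℕ} {K : Type} [Field K] {M : ℕ} (hM : M ≠ 0) :
    Function.Injective (ram (d := d) (K := K) hM) := by
  intro φ ψ h
  ext1 n
  have h1 := congrArg (PowerSeries.coeff (M * n)) h
  rwa [coeff_ram, coeff_ram, if_pos (dvd_mul_right M n), if_pos (dvd_mul_right M n),
    Nat.mul_div_cancel_left n (Nat.pos_of_ne_zero hM)] at h1

theorem rot_injective {d : ℕ} {K : Type} [Field K] {ζ : K} (hζ : ζ ≠ 0) :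
    Function.Injective (rot (d := d) ζ) := by
  intro φ ψ h
  ext1 n
  have h1 := congrArg (PowerSeries.coeff n) h
  rw [coeff_rot, coeff_rot] at h1
  have h2 : (C (ζ ^ n) : MvPowerSeries (Fin d) K) ≠ 0 := by
    intro h3
    have h4 := congrArg (constantCoeff (σ := Fin d) (R := K)) h3
    rw [constantCoeff_C, map_zero] at h4
    exact pow_ne_zero n hζ h4
  exact mul_left_cancel₀ h2 h1

theorem rot_ram {d : ℕ} {K : Type} [Field K] {M : ℕ} (hM : M ≠ 0) {ζ : K} (hζ : ζ ^ M = 1)
    (φ : WS d K) : rot ζ (ram hM φ) = ram hM φ := by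
  ext1 n
  rw [coeff_rot, coeff_ram]
  split_ifs with h
  · obtain ⟨k, rfl⟩ := h
    rw [pow_mul, hζ, one_pow, map_one, one_mul]
  · rw [mul_zero]

theorem exists_ram {d : ℕ} {K : Type} [Field K] [IsAlgClosed K] [CharZero K] {M : ℕ}
    (hM : M ≠ 0) (φ : WS d K) (hφ : ∀ ζ : K, ζ ^ M = 1 → rot ζ φ = φ) : ∃ ψ, ram hM ψ = φ := by
  have hMK : NeZero (M : K) := ⟨by exact_mod_cast hM⟩
  obtain ⟨ζ, hζ⟩ := HasEnoughRootsOfUnity.exists_primitiveRoot K M
  refine ⟨PowerSeries.mk fun k => PowerSeries.coeff (M * k) φ, ?_⟩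
  ext1 n
  rw [coeff_ram]
  split_ifs with h
  · rw [PowerSeries.coeff_mk, Nat.mul_div_cancel' h]
  · have h1 := congrArg (PowerSeries.coeff n) (hφ ζ hζ.pow_eq_one)
    rw [coeff_rot] at h1
    have h2 : (C (ζ ^ n) - 1 : MvPowerSeries (Fin d) K) ≠ 0 := by
      intro h3
      have h4 := congrArg (constantCoeff (σ := Fin d) (R := K)) h3
      rw [map_sub, constantCoeff_C, map_one, map_zero, sub_eq_zero, hζ.pow_eq_one_iff_dvd] at h4
      exact h h4
    have h3 : (C (ζ ^ n) - 1 : MvPowerSeries (Fin d) K) * PowerSeries.coeff n φ = 0 := by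
      rw [sub_mul, h1, one_mul, sub_self]
    exact ((mul_eq_zero.1 h3).resolve_left h2).symm

/-- (R1) A polynomial which is invariant under all `s ↦ ζ s`, `ζ ^ M = 1`, comes from a
polynomial in `s ^ M`. -/
theorem exists_descent {d : ℕ} {K : Type} [Field K] [IsAlgClosed K] [CharZero K] {M : ℕ}
    (hM : M ≠ 0) (Q : Polynomial (WS d K)) (hQ : ∀ ζ : K, ζ ^ M = 1 → Q.map (rot ζ) = Q) :
    ∃ H : Polynomial (WS d K), H.map (ram hM) = Q := by
  rw [← Polynomial.mem_lifts, Polynomial.lifts_iff_coeff_lifts]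
  intro n
  obtain ⟨ψ, hψ⟩ := exists_ram hM (Q.coeff n) fun ζ hζ => by
    have h1 := congrArg (fun P => Polynomial.coeff P n) (hQ ζ hζ)
    simpa only [Polynomial.coeff_map] using h1
  exact ⟨ψ, hψ⟩

/-- (R2) If the products of `Y - a_l` over the sets `T k` come from polynomials in `s ^ M`, so
does the product over the union. -/
theorem exists_union {d N : ℕ} {K : Type} [Field K] [IsAlgClosed K] [CharZero K] {M : ℕ}
    (hM : M ≠ 0) (a : Fin N → WS d K) (ha : Function.Injective a) {κ : Type}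
    (T : κ → Finset (Fin N)) (H : κ → Polynomial (WS d K))
    (hH : ∀ k, (H k).map (ram hM) = ∏ l ∈ T k, (Polynomial.X - Polynomial.C (a l)))
    (L : Finset (Fin N)) (hL : ∀ l, l ∈ L ↔ ∃ k, l ∈ T k) :
    ∃ P : Polynomial (WS d K), P.map (ram hM) = ∏ l ∈ L, (Polynomial.X - Polynomial.C (a l)) := by
  classical
  apply exists_descent hM
  intro ζ hζ
  have hζ0 : ζ ≠ 0 := by
    rintro rfl
    rw [zero_pow hM] at hζ
    exact zero_ne_one hζ
  -- the permutation of the roots
  have key : ∀ l ∈ L, ∃ l' ∈ L, rot ζ (a l) = a l' := by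
    intro l hl
    obtain ⟨k, hk⟩ := (hL l).1 hl
    have h1 : (∏ l ∈ T k, (Polynomial.X - Polynomial.C (a l))).map (rot ζ) =
        ∏ l ∈ T k, (Polynomial.X - Polynomial.C (a l)) := by
      rw [← hH k, Polynomial.map_map]
      congr 1
      ext1 φ
      exact rot_ram hM hζ φ
    have h2 : (∏ l ∈ T k, (Polynomial.X - Polynomial.C (a l))).eval (rot ζ (a l)) = 0 := by
      rw [← h1, Polynomial.map_prod, Polynomial.eval_prod]
      apply Finset.prod_eq_zero hk
      simp
    rw [Polynomial.eval_prod, Finset.prod_eq_zero_iff] at h2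
    obtain ⟨l', hl', h3⟩ := h2
    rw [Polynomial.eval_sub, Polynomial.eval_X, Polynomial.eval_C, sub_eq_zero] at h3
    exact ⟨l', (hL l').2 ⟨k, hl'⟩, h3⟩
  choose! σ hσL hσ using key
  have hinj : Set.InjOn σ L := by
    intro l hl l' hl' h
    apply ha
    apply rot_injective hζ0
    rw [hσ l hl, hσ l' hl', h]
  have himg : L.image σ = L := by
    apply Finset.eq_of_subset_of_card_le
    · intro l hl
      obtain ⟨l', hl', rfl⟩ := Finset.mem_image.1 hl
      exact hσL l' hl'
    · rw [Finset.card_image_of_injOn hinj]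
  rw [Polynomial.map_prod]
  conv_rhs => rw [← himg, Finset.prod_image hinj]
  refine Finset.prod_congr rfl fun l hl => ?_
  rw [Polynomial.map_sub, Polynomial.map_X, Polynomial.map_C, hσ l hl]

theorem dvd_of_map_dvd_gen {R S : Type} [CommRing R] [CommRing S] (f : R →+* S)
    (hf : Function.Injective f) {P Q : Polynomial R} (hP : P.Monic) (h : P.map f ∣ Q.map f) :
    P ∣ Q :=
  (Polynomial.map_dvd_map f hf hP).1 h

/-- (R3) `ram` reflects divisibility by monic polynomials. -/
theorem dvd_of_map_dvd {d : ℕ} {K : Type} [Field K] {M : ℕ} (hM : M ≠ 0)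
    {P Q : Polynomial (WS d K)} (hP : P.Monic) (h : P.map (ram hM) ∣ Q.map (ram hM)) : P ∣ Q := by
  have h1 := ram_injective (d := d) (K := K) hM
  generalize ram (d := d) (K := K) hM = f at h h1
  exact dvd_of_map_dvd_gen f h1 hP h

theorem exists_eq_pow_mul {d : ℕ} {K : Type} [Field K] {x : WS d K} (hx : x ≠ 0) :
    ∃ (j : ℕ) (y : WS d K), x = PowerSeries.X ^ j * y ∧ PowerSeries.constantCoeff y ≠ 0 := by
  have h1 := PowerSeries.coeff_order (φ := x) hx
  have h2 := PowerSeries.X_pow_order_dvd (φ := x)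
  generalize x.order.toNat = j at h1 h2
  obtain ⟨y, hy⟩ := h2
  refine ⟨j, y, hy, fun h0 => h1 ?_⟩
  have h3 := PowerSeries.coeff_X_pow_mul y j 0
  rw [zero_add, ← hy, PowerSeries.coeff_zero_eq_constantCoeff_apply, h0] at h3
  exact h3

/-- (R4) If `s ↦ s ^ M` makes an element a power of `s` up to a unit, it is one. -/
theorem assoc_of_ram {d : ℕ} {K : Type} [Field K] {M : ℕ} (hM : M ≠ 0) {x : WS d K} {k : ℕ}
    (h : Associated (ram hM x) (PowerSeries.X ^ k)) :
    ∃ k', Associated x (PowerSeries.X ^ k') ∧ k = M * k' := by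
  have hx : x ≠ 0 := by
    rintro rfl
    rw [map_zero] at h
    exact pow_ne_zero k PowerSeries.X_ne_zero (associated_zero_iff_eq_zero _ |>.1 h.symm)
  obtain ⟨j, y, hy, hy0⟩ := exists_eq_pow_mul hx
  have hram : ram hM x = PowerSeries.X ^ (M * j) * ram hM y := by
    rw [hy, map_mul, map_pow, ram_apply hM PowerSeries.X, PowerSeries.expand_X, ← pow_mul]
  have hc : PowerSeries.constantCoeff (ram hM y) = PowerSeries.constantCoeff y :=
    PowerSeries.constantCoeff_expand M hM y
  obtain ⟨U, hU⟩ := h.symm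
  rw [hram] at hU
  have hkj : k = M * j := by
    rcases lt_trichotomy k (M * j) with hlt | heq | hgt
    · exfalso
      obtain ⟨i, hi⟩ := Nat.exists_eq_add_of_lt hlt
      rw [hi, show k + i + 1 = k + (i + 1) by ring, pow_add, mul_assoc] at hU
      have h3 := mul_left_cancel₀ (pow_ne_zero k PowerSeries.X_ne_zero) hU
      have h4 : IsUnit (PowerSeries.constantCoeff (U : WS d K)) :=
        U.isUnit.map (PowerSeries.constantCoeff (R := MvPowerSeries (Fin d) K))
      rw [h3, map_mul, map_pow, PowerSeries.constantCoeff_X, zero_pow (Nat.succ_ne_zero i),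
        zero_mul] at h4
      exact not_isUnit_zero h4
    · exact heq
    · exfalso
      obtain ⟨i, hi⟩ := Nat.exists_eq_add_of_lt hgt
      rw [hi, show M * j + i + 1 = M * j + (i + 1) by ring, pow_add, mul_assoc] at hU
      have h3 := mul_left_cancel₀ (pow_ne_zero (M * j) PowerSeries.X_ne_zero) hU
      apply hy0
      rw [← hc, ← h3, map_mul, map_pow, PowerSeries.constantCoeff_X, zero_pow (Nat.succ_ne_zero i),
        zero_mul]
  refine ⟨j, ?_, hkj⟩
  rw [hkj] at hU
  have h3 := mul_left_cancel₀ (pow_ne_zero (M * j) PowerSeries.X_ne_zero) hU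
  have h4 : IsUnit y := by
    rw [PowerSeries.isUnit_iff_constantCoeff, ← hc, ← h3]
    exact U.isUnit.map (PowerSeries.constantCoeff (R := MvPowerSeries (Fin d) K))
  rw [hy]
  exact (associated_mul_unit_left _ _ h4)

end Pool.Agent.Helper85.SB
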