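import Pool.Agent.Helper85.SB.N2
import Pool.Agent.Helper85.SB.R

/-! Block N4: the roots of the equation of one double curve. -/

namespace Pool.Agent.Helper85.SB

open MvPowerSeries Pool.Agent.Helper38.EQ Pool.Agent.Helper38.GP

/-- The value of a polynomial on a branch. -/
theorem branch_eval {d : ℕ} {K : Type} [Field K] (p : Proj (d + 1) K)
    (β : R1 (d + 1) K ≃ₐ[K] WS d K) {M : ℕ} (hM : M ≠ 0) (Γ : R1 (d + 2) K →ₐ[K] WS d K)
    (hΓ : ∀ b, Γ (p.σ.symm (PowerSeries.C b)) = ram hM (β b))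
    (F : Polynomial (R1 (d + 1) K)) :
    Γ (p.σ.symm (F : PowerSeries (R1 (d + 1) K))) =
      ((F.map (β : R1 (d + 1) K →+* WS d K)).map (ram hM)).eval
        (Γ (p.σ.symm PowerSeries.X)) := by
  let Γ' : PowerSeries (R1 (d + 1) K) →ₐ[K] WS d K :=
    Γ.comp (p.σ.symm : PowerSeries (R1 (d + 1) K) →ₐ[K] R1 (d + 2) K)
  have h := eval_coe Γ' F
  have h1 : ((Γ' : PowerSeries (R1 (d + 1) K) →+* WS d K).comp PowerSeries.C) =
      (ram hM).comp (β : R1 (d + 1) K →+* WS d K) := RingHom.ext fun b => hΓ b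
  rw [h1] at h
  rw [Polynomial.map_map]
  exact h

/-- (N4) The germ `h = 0` has order `k`, the projection `p` is transversal for it, and `h` vanishes
on `k` branches of a family: these are all the roots of the Weierstrass polynomial of `h`. (Its
degree is `k` by `exists_wfac`; the distinct values `G l (σ⁻¹ X)`, `l ∈ L`, are roots.) -/
theorem wpoly_eq {d N : ℕ} {K : Type} [Field K] (p : Proj (d + 1) K)
    (β : R1 (d + 1) K ≃ₐ[K] WS d K) {M : ℕ} (hM : M ≠ 0)
    (G : Fin N → (R1 (d + 2) K →ₐ[K] WS d K))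
    (hG : ∀ l b, G l (p.σ.symm (PowerSeries.C b)) = ram hM (β b))
    (hinj : Function.Injective fun l => G l (p.σ.symm PowerSeries.X))
    {h : R1 (d + 2) K} {L : Finset (Fin N)} (ho : HasOrd h L.card)
    (ht : homPart h L.card (fun j => p.tr (X j)) ≠ 0) (hz : ∀ l ∈ L, G l h = 0) :
    ∃ H U, (p.σ h).IsWeierstrassFactorization H U ∧
      (H.map (β : R1 (d + 1) K →+* WS d K)).map (ram hM) =
        ∏ l ∈ L, (Polynomial.X - Polynomial.C (G l (p.σ.symm PowerSeries.X))) := by
  classical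
  obtain ⟨H, U, hHU, hdeg⟩ := exists_wfac p ho ht
  refine ⟨H, U, hHU, ?_⟩
  set Q := (H.map (β : R1 (d + 1) K →+* WS d K)).map (ram hM) with hQ
  have hHm : H.Monic := hHU.isDistinguishedAt.monic
  have hQm : Q.Monic := (hHm.map _).map _
  have hQd : Q.natDegree = L.card := by
    rw [hQ, (hHm.map _).natDegree_map, hHm.natDegree_map, hdeg]
  have hroot : ∀ l ∈ L, Q.eval (G l (p.σ.symm PowerSeries.X)) = 0 := by
    intro l hl
    rw [hQ, ← branch_eval p β hM (G l) (hG l)]
    have h1 : G l (p.σ.symm (H * U)) = 0 := by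
      rw [← hHU.eq_mul, AlgEquiv.symm_apply_apply]
      exact hz l hl
    rw [map_mul, map_mul] at h1
    exact (mul_eq_zero.1 h1).resolve_right ((hHU.isUnit.map p.σ.symm).map (G l)).ne_zero
  have h2 : (L.val.map fun l => G l (p.σ.symm PowerSeries.X)) ≤ Q.roots := by
    rw [Multiset.le_iff_subset (Multiset.Nodup.map hinj L.nodup)]
    intro x hx
    obtain ⟨l, hl, rfl⟩ := Multiset.mem_map.1 hx
    rw [Polynomial.mem_roots hQm.ne_zero]
    exact hroot l hl
  have h3 : (L.val.map fun l => G l (p.σ.symm PowerSeries.X)) = Q.roots := by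
    refine Multiset.eq_of_le_of_card_le h2 ?_
    rw [Multiset.card_map]
    exact (Polynomial.card_roots' Q).trans hQd.le
  have h4 := Polynomial.prod_multiset_X_sub_C_of_monic_of_roots_card_eq hQm (by
    rw [← h3, Multiset.card_map, hQd]
    rfl)
  rw [← h4, ← h3, Multiset.map_map]
  rfl

end Pool.Agent.Helper85.SB
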