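import Pool.Agent.Helper85.SB.N6A

/-! Properties of the families of branches of the double curves. -/

namespace Pool.Agent.Helper85.SB

open MvPowerSeries Pool.Agent.Helper38.EQ Pool.Agent.Helper38.GP
open Pool.Agent.Helper80.SP (cc cc_apply tr_C tr_X symm_mem symm_pow_mem cc_pow_mem linIndep_iff
  linIndep_lift exists_coords hom_sub_mem_coords mem_span_of_eq_zero eqv dvd_of_pull_eq_zero
  mem_span_pair_iff pull_pow_mem homPart_one cs cs_apply cs_eq_zero)

section

variable {d m : ℕ} {K : Type} [Field K] {e : Fin m → MvPowerSeries (Fin (d + 3)) K}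
  {I : Ideal (MvPowerSeries (Fin (d + 3)) K)}

theorem SFam.ξ_mem (F : SFam e I) (k : Fin 3) : F.ξ k ∈ I := F.hI.ge (Ideal.subset_span ⟨k, rfl⟩)

theorem SFam.c_dvd (F : SFam e I) (l : Fin F.N) {f : MvPowerSeries (Fin (d + 3)) K} (hf : f ∈ I) :
    PowerSeries.X ^ F.M ∣ F.c l f := by
  have h1 : Ideal.map (F.c l) (Ideal.span (Set.range F.ξ)) ≤
      Ideal.span {(PowerSeries.X ^ F.M : WS d K)} := by
    rw [Ideal.map_span, Ideal.span_le]
    rintro _ ⟨_, ⟨k, rfl⟩, rfl⟩
    rw [SetLike.mem_coe, Ideal.mem_span_singleton, F.cξ]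
    exact dvd_mul_right _ _
  exact Ideal.mem_span_singleton.1 (h1 (Ideal.mem_map_of_mem _ (F.hI.le hf)))

theorem SFam.mem_of_dvd (F : SFam e I) (l : Fin F.N) {f : MvPowerSeries (Fin (d + 3)) K}
    (hf : PowerSeries.X ∣ F.c l f) : f ∈ I := by
  refine F.hI.ge ?_
  refine mem_span_of_eq_zero F.li (eqv 3 d) ((cs d K).comp (F.c l)) (fun k => ?_) (fun j => ?_) ?_
  · change cs d K (F.c l _) = 0
    rw [cs_eq_zero, F.cξ]
    exact (dvd_pow_self _ (Nat.one_le_iff_ne_zero.1 F.hM)).mul_right _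
  · change cs d K (F.c l (F.t j)) = X j
    rw [F.ct, cs_apply, PowerSeries.constantCoeff_C]
  · exact cs_eq_zero.2 hf

/-- the first branch -/
noncomputable def SFam.l0 (F : SFam e I) : Fin F.N := ⟨0, by have := F.two; omega⟩

theorem SFam.h_pow (F : SFam e I) {i j : Fin m} (hij : i ≠ j) :
    ∃ n, F.h i j ^ n ∈ Ideal.span {e i, e j} := by
  have h1 : F.h i j ∈ (Ideal.span {e i, e j}).radical := by
    rw [F.rad i j hij]
    exact Ideal.subset_span (by simp)
  exact Ideal.mem_radical_iff.1 h1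

theorem SFam.h_zero (F : SFam e I) {i j : Fin m} (hij : i ≠ j) {l : Fin F.N} (hl : l ∈ F.L i j) :
    F.c l (F.h i j) = 0 := by
  obtain ⟨n, hn⟩ := F.h_pow hij
  obtain ⟨a, b, hab⟩ := Ideal.mem_span_pair.1 hn
  obtain ⟨h1, h2⟩ := (F.mem_L i j l).1 hl
  have h3 : F.c l (F.h i j) ^ n = 0 := by
    rw [← map_pow, ← hab, map_add, map_mul, map_mul, h1, h2, mul_zero, mul_zero, add_zero]
  exact eq_zero_of_pow_eq_zero h3

theorem SFam.h_mem (F : SFam e I) {i j : Fin m} (hij : i ≠ j) : F.h i j ∈ I := by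
  obtain ⟨n, hn⟩ := F.h_pow hij
  have h1 : Ideal.span {e i, e j} ≤ I := by
    rw [Ideal.span_le]
    rintro _ (rfl | h)
    · exact F.he i
    · rw [Set.mem_singleton_iff] at h
      rw [h]
      exact F.he j
  have h2 := F.c_dvd F.l0 (h1 hn)
  rw [map_pow] at h2
  refine F.mem_of_dvd F.l0 ?_
  have h3 : (PowerSeries.X : WS d K) ∣ F.c F.l0 (F.h i j) ^ n :=
    (dvd_pow_self _ (Nat.one_le_iff_ne_zero.1 F.hM)).trans h2
  exact (PowerSeries.X_prime (R := MvPowerSeries (Fin d) K)).dvd_of_dvd_pow h3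

theorem SFam.le_max (F : SFam e I) :
    I ≤ IsLocalRing.maximalIdeal (MvPowerSeries (Fin (d + 3)) K) := by
  rw [F.hI, Ideal.span_le]
  rintro _ ⟨k, rfl⟩
  exact (mem_maximalIdeal_iff_constantCoeff _).2 (F.li.1 (Sum.inl k))

theorem SFam.ξ_li (F : SFam e I) : LinIndep F.ξ :=
  ⟨fun k => F.li.1 (Sum.inl k), F.li.2.comp _ Sum.inl_injective⟩

/-- The order of the equation of a double curve on its sheet. -/
theorem SFam.pull_ord (F : SFam e I) {p : Proj (d + 2) K} (s : ∀ i, Sec p (e i)) {i j : Fin m}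
    (hij : i ≠ j) : HasOrd ((s i).pull (F.h i j)) (F.L i j).card := by
  obtain ⟨h1, h2⟩ := F.ord i j hij
  refine ⟨pull_pow_mem (s i) h1, fun h3 => h2 ?_⟩
  have h4 := symm_pow_mem p h3
  obtain ⟨q, hq⟩ := dvd_sub_up (s i) (F.h i j)
  have h5 : F.h i j = up p ((s i).pull (F.h i j)) + e i * q := by
    rw [← hq]
    ring
  rw [h5]
  exact Ideal.add_mem _ (Ideal.mem_sup_left h4)
    (Ideal.mem_sup_right (Ideal.mul_mem_right _ _ (Ideal.mem_span_singleton_self _)))

/-- The radical of the difference of two roots. -/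
theorem SFam.pull_rad (F : SFam e I) {p : Proj (d + 2) K} (s : ∀ i, Sec p (e i)) {i j : Fin m}
    (hij : i ≠ j) : (s i).pull (F.h i j) ∣ (s i).r - (s j).r ∧
      ∃ n, (s i).r - (s j).r ∣ (s i).pull (F.h i j) ^ n := by
  constructor
  · have h1 : e j ∈ Ideal.span {e i, F.h i j} := by
      rw [← F.rad i j hij]
      exact Ideal.le_radical (Ideal.subset_span (by simp))
    rw [mem_span_pair_iff (s i), Ideal.mem_span_singleton] at h1
    exact h1.trans ((s i).assoc (s j)).dvd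
  · obtain ⟨n, hn⟩ := F.h_pow hij
    refine ⟨n, ?_⟩
    rw [mem_span_pair_iff (s i), Ideal.mem_span_singleton, map_pow] at hn
    exact ((s i).assoc (s j)).symm.dvd.trans hn

end

end Pool.Agent.Helper85.SB
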