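import Pool.Agent.Helper85.SB.N6B
import Pool.Agent.Helper85.SB.D

/-! The second projection. -/

namespace Pool.Agent.Helper85.SB

open MvPowerSeries Pool.Agent.Helper38.EQ Pool.Agent.Helper38.GP
open Pool.Agent.Helper80.SP (cc cc_apply cc_symm_C tr_C tr_X symm_mem symm_pow_mem cc_pow_mem
  linIndep_iff linIndep_lift exists_coords hom_sub_mem_coords mem_span_of_eq_zero eqv
  dvd_of_pull_eq_zero mem_span_pair_iff pull_pow_mem homPart_one cs cs_apply cs_eq_zero)

theorem exists_second_proj {d m : ℕ} {K : Type} [Field K] [Infinite K]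
    {e : Fin m → MvPowerSeries (Fin (d + 3)) K} {I : Ideal (MvPowerSeries (Fin (d + 3)) K)}
    (F : SFam e I) {p : Proj (d + 2) K} (s : ∀ i, Sec p (e i)) (ht : ∀ i, p.tr (e i) ≠ 0) :
    ∃ (p₂ : Proj (d + 1) K) (x₁ : R1 (d + 1) K) (a₂ : R1 (d + 2) K),
      (∀ j, IsLinear (p₂.σ.symm (PowerSeries.C (X j)))) ∧
      (∀ i j, i ≠ j → homPart ((s i).pull (F.h i j)) (F.L i j).card
        (fun j => p₂.tr (X j)) ≠ 0) ∧
      HasOrd x₁ 1 ∧ p₂.img (p.img I) = Ideal.span {x₁} ∧ a₂ ∈ p.img I ∧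
      a₂ ∈ IsLocalRing.maximalIdeal (R1 (d + 2) K) ∧ p₂.tr a₂ ≠ 0 ∧
      ∀ l, ∃ a, IsUnit a ∧ F.c l (up p (up p₂ x₁)) = PowerSeries.X ^ F.M * a := by
  classical
  obtain ⟨i0, j0, -, -⟩ := F.exists_pair F.l0
  obtain ⟨q, hq, hJ⟩ := exists_img (p := p) F.ξ_li (e := e i0) (F.hI.le (F.he i0)) (ht i0)
  rw [← F.hI] at hJ
  have hqJ : ∀ k, q k ∈ p.img I := fun k => by
    rw [hJ]
    exact Ideal.subset_span ⟨k, rfl⟩
  have hqI : ∀ k, up p (q k) ∈ I := fun k => (up_mem_iff p).1 (hqJ k)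
  choose A hA using fun l k => F.c_dvd l (hqI k)
  have hα : ∀ l, ¬ (res d K (A l 0) = 0 ∧ res d K (A l 1) = 0) := by
    rintro l ⟨h0, h1⟩
    obtain ⟨i, j, hij, hl⟩ := F.exists_pair l
    have hcl : F.c l (e i) = 0 := ((F.mem_L i j l).1 hl).1
    have h2 : (s i).pull (F.ξ 0) ∈ Ideal.span (Set.range q) := by
      rw [← hJ]
      exact (s i).pull_mem_img (F.he i) (F.ξ_mem 0)
    obtain ⟨b, hb⟩ := Ideal.mem_span_range_iff_exists_fun.1 h2
    obtain ⟨w, hw⟩ := dvd_sub_up (s i) (F.ξ 0)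
    have h3 : F.ξ 0 = up p (∑ k, b k * q k) + e i * w := by
      rw [hb, ← hw]
      ring
    have h4 : F.c l (F.ξ 0) = ∑ k, F.c l (up p (b k)) * (PowerSeries.X ^ F.M * A l k) := by
      rw [h3, map_add, map_mul, hcl, zero_mul, add_zero, map_sum, map_sum]
      refine Finset.sum_congr rfl fun k _ => ?_
      rw [map_mul, map_mul, hA]
    rw [F.cξ, F.u0] at h4
    have h5 : (PowerSeries.X ^ F.M : WS d K) * 1 =
        PowerSeries.X ^ F.M * ∑ k, F.c l (up p (b k)) * A l k := by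
      rw [h4, Finset.mul_sum]
      exact Finset.sum_congr rfl fun k _ => by ring
    have h6 := mul_left_cancel₀ (pow_ne_zero _ PowerSeries.X_ne_zero) h5
    have h7 := congrArg (res d K) h6
    rw [map_one, map_sum, Fin.sum_univ_two, map_mul, map_mul, h0, h1, mul_zero, mul_zero,
      add_zero] at h7
    exact one_ne_zero h7
  let g : Fin F.N → R1 (d + 2) K := fun l => C (res d K (A l 1)) * q 0 - C (res d K (A l 0)) * q 1
  have hg : ∀ l, g l ∈ p.img I := fun l =>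
    Ideal.sub_mem _ (Ideal.mul_mem_left _ _ (hqJ 0)) (Ideal.mul_mem_left _ _ (hqJ 1))
  have hqm : ∀ k, q k ∈ IsLocalRing.maximalIdeal (R1 (d + 2) K) := fun k =>
    (mem_maximalIdeal_iff_constantCoeff _).2 (hq.1 k)
  have hgm : ∀ l, g l ∈ IsLocalRing.maximalIdeal (R1 (d + 2) K) := fun l =>
    Ideal.sub_mem _ (Ideal.mul_mem_left _ _ (hqm 0)) (Ideal.mul_mem_left _ _ (hqm 1))
  have hgo : ∀ l, HasOrd (g l) 1 := by
    intro l
    refine ⟨by rw [pow_one]; exact hgm l, fun h1 => ?_⟩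
    have h2 := ((linIndep_iff q).1 hq).2 ![res d K (A l 1), -res d K (A l 0)] (by
      have h3 : ∑ k, C (![res d K (A l 1), -res d K (A l 0)] k) * q k = g l := by
        rw [Fin.sum_univ_two]
        change C (res d K (A l 1)) * q 0 + C (-res d K (A l 0)) * q 1 =
          C (res d K (A l 1)) * q 0 - C (res d K (A l 0)) * q 1
        rw [map_neg]
        ring
      rw [h3]
      exact h1)
    have h3 := congrFun h2 0
    have h4 := congrFun h2 1
    refine hα l ⟨neg_eq_zero.1 h4, h3⟩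
  obtain ⟨p₂, hlin₂, htr₂⟩ := exists_second (K := K)
    (ι := {ij : Fin m × Fin m // ij.1 ≠ ij.2} ⊕ Fin F.N)
    (Sum.elim (fun ij => (s ij.1.1).pull (F.h ij.1.1 ij.1.2)) g)
    (Sum.elim (fun ij => (F.L ij.1.1 ij.1.2).card) (fun _ => 1)) (by
      rintro (ij | l)
      · exact F.pull_ord s ij.2
      · exact hgo l)
  have htg : ∀ l, p₂.tr (g l) ≠ 0 := by
    intro l
    have h1 := htr₂ (Sum.inr l)
    change homPart (g l) 1 _ ≠ 0 at h1
    rw [homPart_one, ← p₂.tr_eq_lin] at h1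
    exact h1
  obtain ⟨q', hq', hJ₂⟩ := exists_img (p := p₂) hq (e := g F.l0) (by
    rw [← hJ]
    exact hg F.l0) (htg F.l0)
  rw [← hJ, Set.range_unique] at hJ₂
  have hx1 : HasOrd (q' 0) 1 := by
    refine ⟨?_, Pool.Agent.Helper38.ED.LI.notMem_sq (h := q') hq' 0⟩
    rw [pow_one]
    exact (mem_maximalIdeal_iff_constantCoeff _).2 (hq'.1 0)
  refine ⟨p₂, q' 0, g F.l0, hlin₂, fun i j hij => htr₂ (Sum.inl ⟨(i, j), hij⟩), hx1, hJ₂,
    hg F.l0, hgm F.l0, htg F.l0, fun l => ?_⟩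
  have hx₂ : up p₂ (q' 0) ∈ Ideal.span (Set.range q) := by
    rw [← hJ, ← up_mem_iff, hJ₂]
    exact Ideal.mem_span_singleton_self _
  obtain ⟨b, hb⟩ := Ideal.mem_span_range_iff_exists_fun.1 hx₂
  refine ⟨∑ k, F.c l (up p (b k)) * A l k, ?_, ?_⟩
  · rw [isUnit_iff_res]
    intro h0
    have hr : ∀ b : R1 (d + 2) K, res d K (F.c l (up p b)) = constantCoeff b := fun b =>
      res_hom_eq ((F.c l).comp (up p)) b
    rw [Fin.sum_univ_two, map_add, map_mul, map_mul, hr, hr] at h0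
    have h1 : p₂.tr (up p₂ (q' 0)) = 0 := tr_C p₂ _
    have hlin : ∀ v : Fin (d + 2) → K, lin (∑ k, b k * q k) v =
        constantCoeff (b 0) * lin (q 0) v + constantCoeff (b 1) * lin (q 1) v := by
      intro v
      rw [lin_sum b q hq.1 v, Fin.sum_univ_two]
    rw [← hb, p₂.tr_eq_lin, hlin, ← p₂.tr_eq_lin, ← p₂.tr_eq_lin] at h1
    have h2 : p₂.tr (g l) = res d K (A l 1) * p₂.tr (q 0) - res d K (A l 0) * p₂.tr (q 1) := by
      have h3 : g l = ∑ k, (![C (res d K (A l 1)), -C (res d K (A l 0))] :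
          Fin 2 → R1 (d + 2) K) k * q k := by
        rw [Fin.sum_univ_two]
        change C (res d K (A l 1)) * q 0 - C (res d K (A l 0)) * q 1 =
          C (res d K (A l 1)) * q 0 + -C (res d K (A l 0)) * q 1
        ring
      rw [h3, p₂.tr_eq_lin, lin_sum _ q hq.1, Fin.sum_univ_two, ← p₂.tr_eq_lin, ← p₂.tr_eq_lin]
      change constantCoeff (C (res d K (A l 1))) * _ + constantCoeff (-C (res d K (A l 0))) * _ = _
      rw [map_neg, constantCoeff_C, constantCoeff_C]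
      ring
    have h3 := htg l
    rw [h2] at h3
    have hb0 : constantCoeff (b 0) = 0 := by
      refine (mul_eq_zero.1 ?_).resolve_right h3
      linear_combination res d K (A l 1) * h1 - p₂.tr (q 1) * h0
    have hb1 : constantCoeff (b 1) = 0 := by
      refine (mul_eq_zero.1 ?_).resolve_right h3
      linear_combination (-res d K (A l 0)) * h1 + p₂.tr (q 0) * h0
    have hbm : ∀ k, b k ∈ IsLocalRing.maximalIdeal (R1 (d + 2) K) := by
      intro k
      rw [mem_maximalIdeal_iff_constantCoeff]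
      fin_cases k
      · exact hb0
      · exact hb1
    have h4 : up p₂ (q' 0) ∈ IsLocalRing.maximalIdeal (R1 (d + 2) K) ^ 2 := by
      rw [← hb, pow_two]
      exact Ideal.sum_mem _ fun k _ => Ideal.mul_mem_mul (hbm k) (hqm k)
    have h5 := cc_pow_mem p₂ h4
    rw [up_apply, cc_symm_C] at h5
    exact hx1.2 h5
  · rw [← hb, map_sum, map_sum, Finset.mul_sum]
    refine Finset.sum_congr rfl fun k _ => ?_
    rw [map_mul, map_mul, hA]
    ring

end Pool.Agent.Helper85.SB
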